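import Pool.Agent.TH243.LC.Seq

/-!
# The thin space is connected
-/

set_option autoImplicit false

namespace Pool.Agent.TH243.LC

open BoundedContinuousFunction Pool.Agent.W361.LQ Pool.Agent.W654.LQ.Dense Filter Topology

/-- The path of parameters with constant radii. -/
noncomputable def ps (r : ℕ → unitInterval) (t : ℝ) : Pm :=
  ((t : UnitAddCircle), r, fun j => ((t / M j : ℝ) : UnitAddCircle))

/-- The arc of parameters with angles `0`. -/
noncomputable def ar (n : ℕ) (r : unitInterval) : Pm :=
  (0, fun j => if j = n then r else 1, fun _ => 0)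

theorem cont_ps (r : ℕ → unitInterval) : Continuous fun t => Phi (ps r t) := by
  refine Pool.Agent.W764.LQ.continuous_Phi.comp ?_
  unfold ps
  refine (AddCircle.continuous_mk' (1 : ℝ)).prodMk (continuous_const.prodMk ?_)
  refine continuous_pi fun j => ?_
  exact (AddCircle.continuous_mk' (1 : ℝ)).comp (continuous_id.div_const _)

theorem cont_ar (n : ℕ) : Continuous fun r => Phi (ar n r) := by
  refine Pool.Agent.W764.LQ.continuous_Phi.comp ?_
  unfold ar
  refine continuous_const.prodMk (Continuous.prodMk ?_ continuous_const)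
  refine continuous_pi fun j => ?_
  by_cases h : j = n
  · simp only [if_pos h]
    exact continuous_id
  · simp only [if_neg h]
    exact continuous_const

theorem ps_root (r : ℕ → unitInterval) (t : ℝ) (j : ℕ) : M j • (ps r t).2.2 j = (ps r t).1 := by
  have hM : (0 : ℝ) < M j := Pool.Agent.W381.LQ.M_pos j
  exact Pool.Agent.W381.LQ.nsmul_div (M j) hM t

/-- The paths are dense in the pieces. -/
theorem dens {S : Set ℕ} {a : Pm} (ha : a ∈ K S) :
    Phi a ∈ closure (Set.range fun t => Phi (ps a.2.1 t)) := by
  rw [Metric.mem_closure_range_iff]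
  intro ε hε
  obtain ⟨N, hN⟩ := exists_pow_lt_of_lt_one (show (0 : ℝ) < ε / 2 by linarith)
    (show (1 / 2 : ℝ) < 1 by norm_num)
  obtain ⟨t, j, -, ht, hj, -⟩ := angles ha
  have hco : Set.Pairwise (↑(Finset.range N) : Set ℕ) (Function.onFun Nat.Coprime M) := by
    intro m _ n _ hmn
    exact Nat.coprime_fermatNumber_fermatNumber hmn
  obtain ⟨k, hk⟩ := Nat.chineseRemainderOfFinset j M (Finset.range N)
    (fun i _ => Nat.succ_ne_zero _) hco
  refine ⟨t + k, ?_⟩
  have hle : dist (Phi a) (Phi (ps a.2.1 (t + k))) ≤ 2 * (1 / 2 : ℝ) ^ N := by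
    rw [BoundedContinuousFunction.dist_le (by positivity)]
    intro i
    rw [Phi_apply, Phi_apply]
    by_cases hi : i ≤ N
    · have hz : crd (ps a.2.1 (t + k)) i = crd a i := by
        unfold crd
        split_ifs with h0
        · have e : (ps a.2.1 (t + k)).1 = a.1 := by
            change ((t + k : ℝ) : UnitAddCircle) = a.1
            rw [AddCircle.coe_add, Pool.Agent.W381.LQ.coe_nat, add_zero, ht]
          rw [e]
        · have e : (ps a.2.1 (t + k)).2.2 (i - 1) = a.2.2 (i - 1) := by
            change (((t + k) / M (i - 1) : ℝ) : UnitAddCircle) = a.2.2 (i - 1)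
            rw [hj (i - 1)]
            have h1 := hk (i - 1) (Finset.mem_range.2 (by omega))
            have hM := Pool.Agent.W381.LQ.M_pos (i - 1)
            have h2 : ((j (i - 1) : ℕ) : ℤ) ≡ (k : ℤ) [ZMOD (M (i - 1) : ℤ)] :=
              (Int.natCast_modEq_iff.2 h1).symm
            obtain ⟨q, hq⟩ := h2.dvd
            have h3 : (k : ℝ) = j (i - 1) + M (i - 1) * q := by
              have : (k : ℤ) = j (i - 1) + M (i - 1) * q := by linarith
              exact_mod_cast this
            have h4 : (t + k) / M (i - 1) = (t + j (i - 1)) / M (i - 1) + q := by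
              rw [h3]; field_simp; ring
            rw [h4, AddCircle.coe_add]
            have h5 : ((q : ℝ) : UnitAddCircle) = 0 := by
              rw [AddCircle.coe_eq_zero_iff]
              exact ⟨q, by simp⟩
            rw [h5, add_zero]
          rw [e]
          rfl
      rw [hz, dist_self]
      positivity
    · have h1 := norm_crd_le' a i
      have h2 := norm_crd_le' (ps a.2.1 (t + k)) i
      have h3 : (1 / 2 : ℝ) ^ i ≤ (1 / 2 : ℝ) ^ N :=
        pow_le_pow_of_le_one (by norm_num) (by norm_num) (by omega)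
      have h4 := dist_le_norm_add_norm (crd a i) (crd (ps a.2.1 (t + k)) i)
      linarith
  linarith

theorem Xclosed (S : Set ℕ) : IsClosed (X1 S) := (X1_compact S).isClosed

theorem ps_mem {S : Set ℕ} {r : ℕ → unitInterval} (h1 : ∀ n ∈ S, r n = 1)
    (h2 : ∀ m n, m ≠ n → r m = 1 ∨ r n = 1) (h3 : ∀ n, r n = 0 ∨ r n = 1) (t : ℝ) :
    ps r t ∈ K1 S :=
  ⟨fun n => ⟨ps_root r t n, h1 n⟩, h2, fun n => (h3 n).elim Or.inl fun h => Or.inr (Or.inl h)⟩

theorem ar_mem {S : Set ℕ} {n : ℕ} (hn : n ∉ S) (r : unitInterval) : ar n r ∈ K1 S := by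
  refine ⟨fun m => ⟨?_, fun hm => ?_⟩, fun m k hmk => ?_, fun m => Or.inr (Or.inr ⟨rfl, fun _ => rfl⟩)⟩
  · change M m • (0 : UnitAddCircle) = 0
    exact smul_zero _
  · have : m ≠ n := fun h => hn (h ▸ hm)
    exact if_neg this
  · by_cases hm : m = n
    · right
      have : k ≠ n := fun h => hmk (hm.trans h.symm)
      exact if_neg this
    · left
      exact if_neg hm

theorem path_conn (r : ℕ → unitInterval) :
    IsPreconnected (closure (Set.range fun t => Phi (ps r t))) :=
  (isPreconnected_range (cont_ps r)).closure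

theorem path_sub {S : Set ℕ} {r : ℕ → unitInterval} (h1 : ∀ n ∈ S, r n = 1)
    (h2 : ∀ m n, m ≠ n → r m = 1 ∨ r n = 1) (h3 : ∀ n, r n = 0 ∨ r n = 1) :
    closure (Set.range fun t => Phi (ps r t)) ⊆ X1 S := by
  refine closure_minimal ?_ (Xclosed S)
  rintro _ ⟨t, rfl⟩
  exact ⟨_, ps_mem h1 h2 h3 t, rfl⟩

theorem X1_connected (S : Set ℕ) : IsConnected (X1 S) := by
  have hx : Phi (ps (fun _ => 1) 0) ∈ X1 S :=
    ⟨_, ps_mem (fun _ _ => rfl) (fun _ _ _ => Or.inl rfl) (fun _ => Or.inr rfl) 0, rfl⟩
  refine ⟨⟨_, hx⟩, ?_⟩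
  refine isPreconnected_of_forall (Phi (ps (fun _ => 1) 0)) ?_
  rintro _ ⟨a, ha, rfl⟩
  obtain ⟨haK, ha1, ha2⟩ := ha
  by_cases h : ∀ n, a.2.1 n = 1
  · have hr : a.2.1 = fun _ => 1 := funext h
    refine ⟨closure (Set.range fun t => Phi (ps (fun _ => 1) t)), ?_, ?_, ?_, path_conn _⟩
    · exact path_sub (fun _ _ => rfl) (fun _ _ _ => Or.inl rfl) (fun _ => Or.inr rfl)
    · exact subset_closure ⟨0, rfl⟩
    · have := dens haK
      rwa [hr] at this
  · push Not at h
    obtain ⟨n, hn⟩ := h
    have hnS : n ∉ S := fun h => hn ((haK n).2 h)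
    have hoth : ∀ m, m ≠ n → a.2.1 m = 1 := fun m hm => (ha1 m n hm).resolve_right hn
    let r : ℕ → unitInterval := fun j => if j = n then 0 else 1
    have hr1 : ∀ m ∈ S, r m = 1 := by
      intro m hm
      have hmn : m ≠ n := fun h => hnS (h ▸ hm)
      exact if_neg hmn
    have hr2 : ∀ m k, m ≠ k → r m = 1 ∨ r k = 1 := by
      intro m k hmk
      by_cases hm : m = n
      · right
        exact if_neg fun h => hmk (hm.trans h.symm)
      · left
        exact if_neg hm
    have hr3 : ∀ m, r m = 0 ∨ r m = 1 := by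
      intro m
      by_cases hm : m = n
      · left; exact if_pos hm
      · right; exact if_neg hm
    have harc : IsPreconnected (Set.range fun s => Phi (ar n s)) :=
      isPreconnected_range (cont_ar n)
    have hzero : ∀ s : unitInterval, Phi (ps (fun j => if j = n then s else 1) 0) =
        Phi (ar n s) := by
      intro s
      congr 1
      unfold ps ar
      refine Prod.ext ?_ (Prod.ext rfl ?_)
      · simp
      · funext j
        simp
    have hend0 : Phi (ar n 0) = Phi (ps r 0) := (hzero 0).symm
    have hend1 : Phi (ar n 1) = Phi (ps (fun _ => 1) 0) := by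
      rw [← hzero 1]
      congr 2
      funext j
      split_ifs <;> rfl
    refine ⟨(Set.range fun s => Phi (ar n s)) ∪ closure (Set.range fun t => Phi (ps r t)),
      ?_, ?_, ?_, ?_⟩
    · refine Set.union_subset ?_ (path_sub hr1 hr2 hr3)
      rintro _ ⟨s, rfl⟩
      exact ⟨_, ar_mem hnS s, rfl⟩
    · left
      exact ⟨1, hend1⟩
    · rcases ha2 n with h0 | h0 | h0
      · right
        have hr : a.2.1 = r := by
          funext j
          by_cases hj : j = n
          · subst hj
            rw [h0]
            exact (if_pos rfl).symm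
          · rw [hoth j hj]
            exact (if_neg hj).symm
        have := dens haK
        rwa [hr] at this
      · exact absurd h0 hn
      · left
        refine ⟨a.2.1 n, ?_⟩
        simp only []
        congr 1
        unfold ar
        refine Prod.ext h0.1.symm (Prod.ext ?_ ?_)
        · funext j
          by_cases hj : j = n
          · subst hj
            simp
          · simp [hj, hoth j hj]
        · funext j
          exact (h0.2 j).symm
    · refine IsPreconnected.union (Phi (ps r 0)) ⟨0, hend0⟩ (subset_closure ⟨0, rfl⟩) harc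
        (path_conn r)

end Pool.Agent.TH243.LC
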