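import Pool.Agent.TH243.LC.Conn
import Pool.Agent.W952.LP.Defs

/-!
# The thin space has covering dimension at most one
-/

set_option autoImplicit false

namespace Pool.Agent.TH243.LC

open BoundedContinuousFunction Pool.Agent.W361.LQ Pool.Agent.W654.LQ.Dense Filter Topology
open Pool.Agent.W952.LP (DimLE)

/-- Covering dimension of a compact metric space from fine covers of small order. -/
theorem dimLE_of_mesh {X : Type} [MetricSpace X] [CompactSpace X] [Nonempty X] (m : ℕ)
    (h : ∀ ε : ℝ, 0 < ε → ∃ (κ : Type) (_ : Finite κ) (V : κ → Set X), (∀ k, IsOpen (V k)) ∧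
      (∀ x, ∃ k, x ∈ V k) ∧ (∀ k, ∀ x ∈ V k, ∀ y ∈ V k, dist x y < ε) ∧
      ∀ x, Set.ncard {k | x ∈ V k} ≤ m + 1) : DimLE X m := by
  intro ι _ U hU hcov
  obtain ⟨δ, hδ, hleb⟩ := lebesgue_number_lemma_of_metric (s := (Set.univ : Set X)) isCompact_univ
    hU (by rw [hcov])
  obtain ⟨κ, hκ, V, hV1, hV2, hV3, hV4⟩ := h δ hδ
  refine ⟨κ, hκ, V, hV1, ?_, fun k => ?_, hV4⟩
  · exact Set.eq_univ_of_forall fun x => Set.mem_iUnion.2 (hV2 x)
  · rcases Set.eq_empty_or_nonempty (V k) with hk | ⟨x, hx⟩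
    · obtain ⟨x0⟩ := (inferInstance : Nonempty X)
      obtain ⟨i, -⟩ := hleb x0 trivial
      exact ⟨i, by rw [hk]; exact Set.empty_subset _⟩
    · obtain ⟨i, hi⟩ := hleb x trivial
      refine ⟨i, fun y hy => hi ?_⟩
      rw [Metric.mem_ball]
      exact hV3 k y hy x hx

/-- an integer close to a real number -/
theorem int_near {x : ℝ} {q : ℤ} (h : |x - q| < 3 / 4) : q = ⌊x⌋ ∨ q = ⌊x⌋ + 1 := by
  rw [abs_lt] at h
  have h1 := Int.floor_le x
  have h2 := Int.lt_floor_add_one x
  have h3 : (q : ℝ) < ⌊x⌋ + 2 := by linarith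
  have h4 : (⌊x⌋ : ℝ) - 1 < q := by linarith
  have h5 : q < ⌊x⌋ + 2 := by exact_mod_cast h3
  have h6 : ⌊x⌋ - 1 < q := by exact_mod_cast h4
  omega

/-- the radius of the small arcs -/
noncomputable def dl (J : ℕ) : ℝ := 3 / (4 * J)

/-- the centres -/
noncomputable def cen (J : ℕ) (j : ℕ) : ℝ := (j : ℝ) / J

theorem norm_lift (t : ℝ) : ∃ k : ℤ, ‖(t : UnitAddCircle)‖ = |t - k| :=
  ⟨round t, UnitAddCircle.norm_eq⟩

theorem few {J : ℕ} (hJ : 0 < J) (z : UnitAddCircle) :
    Set.ncard {j : Fin J | ‖z - (cen J j : UnitAddCircle)‖ < dl J} ≤ 2 := by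
  obtain ⟨t, rfl, -⟩ := lift z
  have hJ' : (0 : ℝ) < J := by exact_mod_cast hJ
  have hJz : (0 : ℤ) < J := by exact_mod_cast hJ
  let p : ℤ := ⌊(J : ℝ) * t⌋
  have hlt : ∀ q : ℤ, (q % (J : ℤ)).toNat < J := by
    intro q
    have h1 := Int.emod_lt_of_pos q hJz
    have h2 := Int.emod_nonneg q hJz.ne'
    omega
  let f : ℤ → Fin J := fun q => ⟨(q % (J : ℤ)).toNat, hlt q⟩
  have hsub : {j : Fin J | ‖(t : UnitAddCircle) - (cen J j : UnitAddCircle)‖ < dl J} ⊆
      {f p, f (p + 1)} := by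
    intro j hj
    rw [Set.mem_ofPred_eq, ← AddCircle.coe_sub] at hj
    obtain ⟨k, hk⟩ := norm_lift (t - cen J j)
    rw [hk] at hj
    have h1 : |(J : ℝ) * t - ((j + k * J : ℤ) : ℝ)| < 3 / 4 := by
      have h2 : (J : ℝ) * t - ((j + k * J : ℤ) : ℝ) = J * (t - cen J j - k) := by
        unfold cen
        push_cast
        field_simp
        ring
      rw [h2, abs_mul, abs_of_pos hJ']
      unfold dl at hj
      calc (J : ℝ) * |t - cen J j - k| < J * (3 / (4 * J)) := by
            exact mul_lt_mul_of_pos_left hj hJ'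
        _ = 3 / 4 := by field_simp
    have h3 := int_near h1
    have h4 : f (j + k * J) = j := by
      apply Fin.ext
      show (((j : ℤ) + k * J) % (J : ℤ)).toNat = j
      rw [Int.add_mul_emod_self_right, Int.emod_eq_of_lt (by positivity) (by exact_mod_cast j.2)]
      simp
    rcases h3 with h3 | h3
    · left
      rw [← h4, h3]
    · right
      rw [Set.mem_singleton_iff, ← h4, h3]
  refine (Set.ncard_le_ncard hsub (Set.toFinite _)).trans ?_
  refine (Set.ncard_insert_le _ _).trans ?_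
  rw [Set.ncard_singleton]

theorem exists_cen {J : ℕ} (hJ : 0 < J) (z : UnitAddCircle) :
    ∃ (j : Fin J) (t : ℝ), z = ((cen J j + t : ℝ) : UnitAddCircle) ∧ |t| < dl J := by
  obtain ⟨x, hx0, hx1, rfl⟩ := rep_exists z
  have hJ' : (0 : ℝ) < J := by exact_mod_cast hJ
  have hJz : (0 : ℤ) < J := by exact_mod_cast hJ
  let q : ℤ := ⌊(J : ℝ) * x⌋
  -- use the rounding of J x
  let r : ℤ := round ((J : ℝ) * x)
  have hr : |(J : ℝ) * x - r| ≤ 1 / 2 := abs_sub_round _
  have h2 := Int.emod_nonneg r hJz.ne'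
  have hlt : (r % (J : ℤ)).toNat < J := by
    have h1 := Int.emod_lt_of_pos r hJz
    omega
  refine ⟨⟨(r % (J : ℤ)).toNat, hlt⟩, x - r / J, ?_, ?_⟩
  · have h3 : (((r % (J : ℤ)).toNat : ℕ) : ℝ) = ((r % (J : ℤ) : ℤ) : ℝ) := by
      have : (((r % (J : ℤ)).toNat : ℕ) : ℤ) = r % (J : ℤ) := Int.toNat_of_nonneg h2
      exact_mod_cast congrArg (fun x : ℤ => (x : ℝ)) this
    have h4 : ((r % (J : ℤ) : ℤ) : ℝ) = r - J * (r / (J : ℤ) : ℤ) := by
      have := Int.emod_def r (J : ℤ)
      rw [this]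
      push_cast
      ring
    have h5 : cen J (r % (J : ℤ)).toNat + (x - r / J) = x + ((-(r / (J : ℤ)) : ℤ) : ℝ) := by
      unfold cen
      rw [h3, h4]
      push_cast
      field_simp
      ring
    show (x : UnitAddCircle) = ((cen J (r % (J : ℤ)).toNat + (x - r / J) : ℝ) : UnitAddCircle)
    rw [h5, AddCircle.coe_add]
    have h6 : (((-(r / (J : ℤ)) : ℤ) : ℝ) : UnitAddCircle) = 0 := by
      rw [AddCircle.coe_eq_zero_iff]
      exact ⟨-(r / (J : ℤ)), by simp⟩
    rw [h6, add_zero]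
  · have h3 : x - r / J = (J * x - r) / J := by field_simp
    rw [h3, abs_div, abs_of_pos hJ']
    unfold dl
    rw [div_lt_div_iff₀ hJ' (by positivity)]
    nlinarith

/-- The index set of the cover. -/
abbrev Idx (J N : ℕ) : Type :=
  (Fin J × ((m : Fin N) → {u : UnitAddCircle // M m • u = 0}) × Option (Fin N)) ⊕ (Fin N × Fin J)

instance (J N : ℕ) : Finite (Idx J N) := by
  have : ∀ m : Fin N, Finite {u : UnitAddCircle // M m • u = 0} := fun m =>
    (AddCircle.finite_torsion (p := (1 : ℝ)) (Nat.succ_pos _ : 0 < M m)).to_subtype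
  infer_instance

/-- The angle number `m` is close to the root given by `q`. -/
def Nr {J N : ℕ} (j : Fin J) (q : (m : Fin N) → {u : UnitAddCircle // M m • u = 0}) (m : Fin N)
    (a : Pm) : Prop :=
  ‖a.2.2 m - ((cen J j / M m : ℝ) : UnitAddCircle) - (q m).1‖ < dl J / M m

/-- The members of the cover. -/
def Wc {J N : ℕ} : Idx J N → Set Pm
  | Sum.inl (j, q, none) => {a | ‖a.1 - (cen J j : UnitAddCircle)‖ < dl J ∧
      ∀ m : Fin N, 1 - dl J < (a.2.1 m : ℝ) ∧ Nr j q m a}
  | Sum.inl (j, q, some n) => {a | ‖a.1 - (cen J j : UnitAddCircle)‖ < dl J ∧ (q n).1 = 0 ∧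
      (a.2.1 n : ℝ) < dl J ∧ ∀ m : Fin N, m ≠ n → Nr j q m a}
  | Sum.inr (n, i) => {a | 0 < (i : ℕ) ∧ |(a.2.1 n : ℝ) - cen J i| < dl J}

theorem open_Nr {J N : ℕ} (j : Fin J) (q : (m : Fin N) → {u : UnitAddCircle // M m • u = 0})
    (m : Fin N) : IsOpen {a : Pm | Nr j q m a} := by
  unfold Nr
  exact isOpen_lt (((c_w m).sub continuous_const).sub continuous_const).norm continuous_const

theorem open_Wc {J N : ℕ} (k : Idx J N) : IsOpen (Wc k) := by
  have hz : ∀ j : Fin J, IsOpen {a : Pm | ‖a.1 - (cen J j : UnitAddCircle)‖ < dl J} := fun j =>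
    isOpen_lt (continuous_fst.sub continuous_const).norm continuous_const
  have hr : ∀ n : ℕ, Continuous fun a : Pm => (a.2.1 n : ℝ) := fun n =>
    continuous_subtype_val.comp (c_r n)
  rcases k with ⟨j, q, _ | n⟩ | ⟨n, i⟩
  · have h1 : Wc (Sum.inl (j, q, none) : Idx J N) = {a : Pm | ‖a.1 - (cen J j : UnitAddCircle)‖ < dl J} ∩
        ⋂ m : Fin N, ({a : Pm | 1 - dl J < (a.2.1 m : ℝ)} ∩ {a : Pm | Nr j q m a}) := by
      ext a
      simp only [Wc, Set.mem_ofPred_eq, Set.mem_inter_iff, Set.mem_iInter]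
    rw [h1]
    refine (hz j).inter (isOpen_iInter_of_finite fun m => ?_)
    exact (isOpen_lt continuous_const (hr m)).inter (open_Nr j q m)
  · by_cases hq : (q n).1 = 0
    · have h1 : Wc (Sum.inl (j, q, some n) : Idx J N) =
          {a : Pm | ‖a.1 - (cen J j : UnitAddCircle)‖ < dl J} ∩ ({a : Pm | (a.2.1 n : ℝ) < dl J} ∩
          ⋂ m : Fin N, {a : Pm | m ≠ n → Nr j q m a}) := by
        ext a
        simp only [Wc, Set.mem_ofPred_eq, Set.mem_inter_iff, Set.mem_iInter, hq, true_and]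
      rw [h1]
      refine (hz j).inter ((isOpen_lt (hr n) continuous_const).inter
        (isOpen_iInter_of_finite fun m => ?_))
      by_cases hm : m = n
      · have : {a : Pm | m ≠ n → Nr j q m a} = Set.univ := by
          ext a; simp [hm]
        rw [this]
        exact isOpen_univ
      · have : {a : Pm | m ≠ n → Nr j q m a} = {a : Pm | Nr j q m a} := by
          ext a; simp [hm]
        rw [this]
        exact open_Nr j q m
    · have h1 : Wc (Sum.inl (j, q, some n) : Idx J N) = ∅ := by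
        ext a
        simp only [Wc, Set.mem_ofPred_eq, Set.mem_empty_iff_false, iff_false]
        exact fun h => hq h.2.1
      rw [h1]
      exact isOpen_empty
  · by_cases hi : 0 < (i : ℕ)
    · have h1 : Wc (Sum.inr (n, i) : Idx J N) = {a : Pm | |(a.2.1 n : ℝ) - cen J i| < dl J} := by
        ext a
        simp only [Wc, Set.mem_ofPred_eq, hi, true_and]
      rw [h1]
      exact isOpen_lt ((hr n).sub continuous_const).abs continuous_const
    · have h1 : Wc (Sum.inr (n, i) : Idx J N) = ∅ := by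
        ext a
        simp only [Wc, Set.mem_ofPred_eq, Set.mem_empty_iff_false, iff_false]
        exact fun h => hi h.1
      rw [h1]
      exact isOpen_empty

end Pool.Agent.TH243.LC
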