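import Pool.Agent.TH243.LC.Dim

/-!
# The thin space has covering dimension at most one: the cover
-/

set_option autoImplicit false

namespace Pool.Agent.TH243.LC

open BoundedContinuousFunction Pool.Agent.W361.LQ Pool.Agent.W654.LQ.Dense Filter Topology
open Pool.Agent.W952.LP (DimLE)

theorem dl_pos {J : ℕ} (hJ : 4 ≤ J) : 0 < dl J := by
  have : (0 : ℝ) < J := by
    have : 0 < J := by omega
    exact_mod_cast this
  unfold dl
  positivity

theorem dl_lt {J : ℕ} (hJ : 4 ≤ J) : dl J < 1 / 2 := by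
  have h : (4 : ℝ) ≤ J := by exact_mod_cast hJ
  unfold dl
  rw [div_lt_div_iff₀ (by linarith) (by norm_num)]
  linarith

theorem Mp (n : ℕ) : (0 : ℝ) < M n := Pool.Agent.W381.LQ.M_pos n

theorem nr_unique {J N : ℕ} (hJ : 4 ≤ J) {j : Fin J}
    {q q' : (m : Fin N) → {u : UnitAddCircle // M m • u = 0}} {m : Fin N} {a : Pm}
    (h : Nr j q m a) (h' : Nr j q' m a) : q m = q' m := by
  apply Subtype.ext
  have h1 : M m • ((q m).1 - (q' m).1) = 0 := by
    rw [nsmul_sub, (q m).2, (q' m).2, sub_self]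
  have h2 : ‖(q m).1 - (q' m).1‖ < 1 / (M m : ℝ) := by
    have e : (q m).1 - (q' m).1 =
        (a.2.2 m - ((cen J j / M m : ℝ) : UnitAddCircle) - (q' m).1) -
        (a.2.2 m - ((cen J j / M m : ℝ) : UnitAddCircle) - (q m).1) := by abel
    rw [e]
    refine (norm_sub_le _ _).trans_lt ?_
    unfold Nr at h h'
    have h3 : 2 * (dl J / M m) < 1 / (M m : ℝ) := by
      have := dl_lt hJ
      rw [← mul_div_assoc, div_lt_div_iff_of_pos_right (Mp m)]
      linarith
    linarith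
  exact sub_eq_zero.1 (tor h1 h2)

theorem cen_zero {J : ℕ} {j : Fin J} (h : ‖(0 : UnitAddCircle) - (cen J j : UnitAddCircle)‖ < dl J) :
    (j : ℕ) = 0 := by
  have hJ : 0 < J := j.pos
  have hJ' : (0 : ℝ) < J := by exact_mod_cast hJ
  rw [zero_sub, norm_neg] at h
  obtain ⟨k, hk⟩ := norm_lift (cen J j)
  rw [hk] at h
  have h1 : |((j : ℤ) - k * J : ℤ)| < 1 := by
    have h2 : |(((j : ℤ) - k * J : ℤ) : ℝ)| < 1 := by
      have h3 : (((j : ℤ) - k * J : ℤ) : ℝ) = J * (cen J j - k) := by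
        unfold cen
        push_cast
        field_simp
      rw [h3, abs_mul, abs_of_pos hJ']
      unfold dl at h
      calc (J : ℝ) * |cen J j - k| < J * (3 / (4 * J)) := mul_lt_mul_of_pos_left h hJ'
        _ = 3 / 4 := by field_simp
        _ < 1 := by norm_num
    exact_mod_cast h2
  have h2 : (j : ℤ) - k * J = 0 := Int.abs_lt_one_iff.1 h1
  have h3 : (j : ℤ) = k * J := by linarith
  have hj : (j : ℤ) < J := by exact_mod_cast j.2
  have hj0 : (0 : ℤ) ≤ j := by positivity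
  have hJz : (0 : ℤ) < J := by exact_mod_cast hJ
  have h4 : k < 1 := by
    by_contra h5
    push Not at h5
    nlinarith
  have h6 : 0 ≤ k := by
    by_contra h5
    push Not at h5
    nlinarith
  have h7 : k = 0 := by omega
  rw [h7, zero_mul] at h3
  exact_mod_cast h3

/-- the shape of the parameters -/
theorem shape {S : Set ℕ} {a : Pm} (ha : a ∈ K1 S) (N : ℕ) :
    (∀ m : Fin N, a.2.1 m = 1) ∨ ∃ n : Fin N, a.2.1 n ≠ 1 ∧ (∀ m : ℕ, m ≠ n → a.2.1 m = 1) ∧
      (a.2.1 n = 0 ∨ (a.1 = 0 ∧ ∀ m, a.2.2 m = 0)) := by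
  by_cases h : ∀ m : Fin N, a.2.1 m = 1
  · exact Or.inl h
  · push Not at h
    obtain ⟨n, hn⟩ := h
    refine Or.inr ⟨n, hn, fun m hm => (ha.2.1 m n hm).resolve_right hn, ?_⟩
    rcases ha.2.2 n with h | h | h
    · exact Or.inl h
    · exact absurd h hn
    · exact Or.inr h

theorem one_sub_cen {J : ℕ} (i : Fin J) : dl J < 1 - cen J i := by
  have hJ : 0 < J := i.pos
  have hJ' : (0 : ℝ) < J := by exact_mod_cast hJ
  have hi : ((i : ℕ) : ℝ) + 1 ≤ J := by exact_mod_cast i.2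
  unfold dl cen
  rw [lt_sub_iff_add_lt, ← sub_pos]
  have : (1 : ℝ) - (3 / (4 * J) + ((i : ℕ) : ℝ) / J) = (J - (i : ℕ) - 3 / 4) / J := by
    field_simp
    ring
  rw [this]
  apply div_pos _ hJ'
  linarith

theorem not_one {J : ℕ} {i : Fin J} (h : |(((1 : unitInterval)) : ℝ) - cen J i| < dl J) : False := by
  have h1 := one_sub_cen i
  have h2 := (abs_lt.1 h).2
  have h3 : (((1 : unitInterval)) : ℝ) = 1 := rfl
  rw [h3] at h2
  linarith

theorem not_zero {J : ℕ} {i : Fin J} (h0 : 0 < (i : ℕ))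
    (h : |(((0 : unitInterval)) : ℝ) - cen J i| < dl J) : False := by
  have hJ : 0 < J := i.pos
  have hJ' : (0 : ℝ) < J := by exact_mod_cast hJ
  have h2 := (abs_lt.1 h).1
  have h3 : (((0 : unitInterval)) : ℝ) = 0 := rfl
  have hi : (1 : ℝ) ≤ (i : ℕ) := by exact_mod_cast h0
  rw [h3] at h2
  unfold dl cen at h2
  have h4 : ((i : ℕ) : ℝ) / J < 3 / (4 * J) := by linarith
  rw [div_lt_div_iff₀ hJ' (by positivity)] at h4
  nlinarith

/-- the cover covers -/
theorem covers {S : Set ℕ} {J : ℕ} (hJ : 4 ≤ J) (N : ℕ) {a : Pm} (ha : a ∈ K1 S) :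
    ∃ k : Idx J N, a ∈ Wc k := by
  have hJ0 : 0 < J := by omega
  have hJ' : (0 : ℝ) < J := by exact_mod_cast hJ0
  have hdl := dl_pos hJ
  obtain ⟨j, t, hz, ht⟩ := exists_cen hJ0 a.1
  have hzc : ‖a.1 - (cen J j : UnitAddCircle)‖ < dl J := by
    rw [hz, AddCircle.coe_add, add_sub_cancel_left]
    exact (norm_coe_le t).trans_lt ht
  have hroot : ∀ m : ℕ, M m • (a.2.2 m - (((cen J j + t) / M m : ℝ) : UnitAddCircle)) = 0 := by
    intro m
    rw [nsmul_sub, Pool.Agent.W381.LQ.nsmul_div (M m) (Mp m), (ha.1 m).1, hz, sub_self]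
  have hnr : ∀ m : ℕ, ‖a.2.2 m - ((cen J j / M m : ℝ) : UnitAddCircle) -
      (a.2.2 m - (((cen J j + t) / M m : ℝ) : UnitAddCircle))‖ < dl J / M m := by
    intro m
    have e : a.2.2 m - ((cen J j / M m : ℝ) : UnitAddCircle) -
        (a.2.2 m - (((cen J j + t) / M m : ℝ) : UnitAddCircle)) = ((t / M m : ℝ) : UnitAddCircle) := by
      rw [add_div, AddCircle.coe_add]
      abel
    rw [e]
    refine (norm_coe_le _).trans_lt ?_
    rw [abs_div, abs_of_pos (Mp m), div_lt_div_iff_of_pos_right (Mp m)]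
    exact ht
  rcases shape ha N with h | ⟨n, hn, hoth, h | ⟨h0, hw⟩⟩
  · refine ⟨Sum.inl (j, fun m => ⟨_, hroot m⟩, none), hzc, fun m => ⟨?_, hnr m⟩⟩
    rw [h m]
    have : (((1 : unitInterval)) : ℝ) = 1 := rfl
    linarith
  · refine ⟨Sum.inl (j, fun m => if m = n then ⟨0, smul_zero _⟩ else ⟨_, hroot m⟩, some n), hzc,
      ?_, ?_, fun m hm => ?_⟩
    · simp
    · rw [h]
      exact hdl
    · unfold Nr
      beta_reduce
      rw [if_neg hm]
      exact hnr m
  · -- arc
    have hr0 := (a.2.1 n).2.1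
    have hr1 := (a.2.1 n).2.2
    have h00 : ‖a.1 - (cen J 0 : UnitAddCircle)‖ < dl J := by
      rw [h0]
      unfold cen
      simpa using hdl
    have hN0 : ∀ m : Fin N, Nr (J := J) (N := N) ⟨0, hJ0⟩ (fun m => ⟨0, smul_zero _⟩) m a := by
      intro m
      unfold Nr
      rw [hw m]
      unfold cen
      simpa using div_pos hdl (Mp m)
    let i : ℤ := round ((J : ℝ) * (a.2.1 n : ℝ))
    have hi : |(J : ℝ) * (a.2.1 n : ℝ) - i| ≤ 1 / 2 := abs_sub_round _
    have hi' := abs_le.1 hi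
    have hi0 : 0 ≤ i := by
      have : (-1 : ℝ) < i := by nlinarith
      have : (-1 : ℤ) < i := by exact_mod_cast this
      omega
    have hiJ : i ≤ J := by
      have : (i : ℝ) < J + 1 := by nlinarith
      have : i < J + 1 := by exact_mod_cast this
      omega
    rcases eq_or_lt_of_le hi0 with h1 | h1
    · refine ⟨Sum.inl (⟨0, hJ0⟩, fun m => ⟨0, smul_zero _⟩, some n), h00, rfl, ?_, fun m _ => hN0 m⟩
      rw [← h1] at hi'
      unfold dl
      rw [lt_div_iff₀ (by positivity)]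
      have h2 := hi'.2
      push_cast at h2
      nlinarith
    · rcases eq_or_lt_of_le hiJ with h2 | h2
      · refine ⟨Sum.inl (⟨0, hJ0⟩, fun m => ⟨0, smul_zero _⟩, none), h00, fun m => ⟨?_, hN0 m⟩⟩
        by_cases hm : m = n
        · rw [hm]
          have h3 := hi'.1
          rw [h2] at h3
          push_cast at h3
          have h4 : dl J = 3 / 4 / J := by unfold dl; field_simp
          rw [h4]
          have h5 : (1 : ℝ) - (a.2.1 n : ℝ) < 3 / 4 / J := by
            rw [lt_div_iff₀ hJ']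
            nlinarith
          linarith
        · rw [hoth m (fun h => hm (Fin.ext h))]
          have : (((1 : unitInterval)) : ℝ) = 1 := rfl
          linarith
      · have h3 : i.toNat < J := by omega
        refine ⟨Sum.inr (n, ⟨i.toNat, h3⟩), ?_, ?_⟩
        · show 0 < i.toNat
          omega
        · show |(a.2.1 n : ℝ) - cen J i.toNat| < dl J
          have h4 : ((i.toNat : ℕ) : ℝ) = (i : ℝ) := by
            have : ((i.toNat : ℕ) : ℤ) = i := Int.toNat_of_nonneg hi0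
            exact_mod_cast congrArg (fun x : ℤ => (x : ℝ)) this
          unfold cen dl
          rw [h4]
          have h5 : (a.2.1 n : ℝ) - i / J = (J * (a.2.1 n : ℝ) - i) / J := by field_simp
          rw [h5, abs_div, abs_of_pos hJ', div_lt_div_iff₀ hJ' (by positivity)]
          nlinarith

/-- the cover is saturated -/
theorem satur {S : Set ℕ} {J N : ℕ} (hJ : 4 ≤ J) {a b : Pm} (ha : a ∈ K1 S)
    (hab : Phi a = Phi b) (k : Idx J N) (hk : a ∈ Wc k) : b ∈ Wc k := by
  obtain ⟨h1, h2⟩ := inj a b hab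
  have hdl := dl_pos hJ
  have hdl2 := dl_lt hJ
  rcases k with ⟨j, q, _ | n⟩ | ⟨n, i⟩
  · refine ⟨h1 ▸ hk.1, fun m => ?_⟩
    obtain ⟨h3, h4⟩ := hk.2 m
    have h5 : a.2.1 m ≠ 0 := by
      intro h
      rw [h] at h3
      have : (((0 : unitInterval)) : ℝ) = 0 := rfl
      linarith
    refine ⟨(h2 m).1 ▸ h3, ?_⟩
    unfold Nr
    rw [← (h2 m).2 h5]
    exact h4
  · refine ⟨h1 ▸ hk.1, hk.2.1, (h2 n).1 ▸ hk.2.2.1, fun m hm => ?_⟩
    have h6 : a.2.1 n ≠ 1 := by
      intro h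
      have h7 := hk.2.2.1
      rw [h] at h7
      have : (((1 : unitInterval)) : ℝ) = 1 := rfl
      linarith
    have h5 : a.2.1 m ≠ 0 := by
      have : a.2.1 m = 1 :=
        (ha.2.1 m n (fun h => hm (Fin.ext h))).resolve_right h6
      rw [this]
      exact one_ne_zero
    unfold Nr
    rw [← (h2 m).2 h5]
    exact hk.2.2.2 m hm
  · exact ⟨hk.1, (h2 n).1 ▸ hk.2⟩

end Pool.Agent.TH243.LC
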