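import Pool.Agent.TH243.LC.Dim2

/-!
# The thin space has covering dimension at most one: order and mesh of the cover
-/

set_option autoImplicit false

namespace Pool.Agent.TH243.LC

open BoundedContinuousFunction Pool.Agent.W361.LQ Pool.Agent.W654.LQ.Dense Filter Topology
open Pool.Agent.W952.LP (DimLE)

theorem order_aux {κ : Type} [Finite κ] {ι : Type} {s : Set κ} {t : Set ι} (f : κ → ι)
    (h1 : ∀ k ∈ s, f k ∈ t) (h2 : Set.InjOn f s) (ht : t.Finite) (h3 : t.ncard ≤ 2) :
    s.ncard ≤ 1 + 1 :=
  (Set.ncard_le_ncard_of_injOn f h1 h2 ht).trans h3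

/-- the order of the cover -/
theorem order {S : Set ℕ} {J N : ℕ} (hJ : 4 ≤ J) {a : Pm} (ha : a ∈ K1 S) :
    Set.ncard {k : Idx J N | a ∈ Wc k} ≤ 1 + 1 := by
  have hJ0 : 0 < J := by omega
  have hJ' : (0 : ℝ) < J := by exact_mod_cast hJ0
  have hdl := dl_pos hJ
  have hdl2 := dl_lt hJ
  have e1 : (((1 : unitInterval)) : ℝ) = 1 := rfl
  have e0 : (((0 : unitInterval)) : ℝ) = 0 := rfl
  rcases shape ha N with h | ⟨n, hn, hoth, h | ⟨h0, hw⟩⟩
  · -- all radii one
    refine order_aux (t := {j : Fin J | ‖a.1 - (cen J j : UnitAddCircle)‖ < dl J})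
      (fun k => k.elim (fun x => x.1) fun x => x.2) ?_ ?_ (Set.toFinite _) (few hJ0 a.1)
    · rintro (⟨j, q, _ | n⟩ | ⟨n, i⟩) hk
      · exact hk.1
      · exact hk.1
      · have := hk.2
        rw [h n] at this
        exact (not_one this).elim
    · rintro (⟨j, q, _ | n⟩ | ⟨n, i⟩) hk (⟨j', q', _ | n'⟩ | ⟨n', i'⟩) hk' hjj
      · have hj : j = j' := hjj
        subst hj
        have hq : q = q' := funext fun m => nr_unique hJ (hk.2 m).2 (hk'.2 m).2
        rw [hq]
      · have := hk'.2.2.1
        rw [h n'] at this
        linarith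
      · have := hk'.2
        rw [h n'] at this
        exact (not_one this).elim
      · have := hk.2.2.1
        rw [h n] at this
        linarith
      · have := hk.2.2.1
        rw [h n] at this
        linarith
      · have := hk.2.2.1
        rw [h n] at this
        linarith
      · have := hk.2
        rw [h n] at this
        exact (not_one this).elim
      · have := hk.2
        rw [h n] at this
        exact (not_one this).elim
      · have := hk.2
        rw [h n] at this
        exact (not_one this).elim
  · -- one radius zero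
    have hinr : ∀ (n' : Fin N) (i : Fin J), a ∉ Wc (Sum.inr (n', i) : Idx J N) := by
      intro n' i hk
      by_cases hnn : n' = n
      · subst hnn
        have h1 := hk.1
        have h2 := hk.2
        rw [h] at h2
        exact not_zero h1 h2
      · have h2 := hk.2
        rw [hoth n' (fun h => hnn (Fin.ext h))] at h2
        exact not_one h2
    have hnone : ∀ (j : Fin J) (q : (m : Fin N) → {u : UnitAddCircle // M m • u = 0}),
        a ∉ Wc (Sum.inl (j, q, none) : Idx J N) := by
      intro j q hk
      have h1 := (hk.2 n).1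
      rw [h] at h1
      linarith
    have hsome : ∀ (j : Fin J) (q : (m : Fin N) → {u : UnitAddCircle // M m • u = 0})
        (n' : Fin N), a ∈ Wc (Sum.inl (j, q, some n') : Idx J N) → n' = n := by
      intro j q n' hk
      by_contra hnn
      have h1 := hk.2.2.1
      rw [hoth n' (fun h => hnn (Fin.ext h))] at h1
      linarith
    refine order_aux (t := {j : Fin J | ‖a.1 - (cen J j : UnitAddCircle)‖ < dl J})
      (fun k => k.elim (fun x => x.1) fun x => x.2) ?_ ?_ (Set.toFinite _) (few hJ0 a.1)
    · rintro (⟨j, q, _ | n'⟩ | ⟨n', i⟩) hk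
      · exact hk.1
      · exact hk.1
      · exact (hinr _ _ hk).elim
    · rintro (⟨j, q, _ | n1⟩ | ⟨n1, i⟩) hk (⟨j', q', _ | n2⟩ | ⟨n2, i'⟩) hk' hjj
      · exact (hnone _ _ hk).elim
      · exact (hnone _ _ hk).elim
      · exact (hnone _ _ hk).elim
      · exact (hnone _ _ hk').elim
      · have hj : j = j' := hjj
        subst hj
        have hn1 := hsome _ _ _ hk
        have hn2 := hsome _ _ _ hk'
        subst hn1
        subst hn2
        have hq : q = q' := by
          funext m
          by_cases hm : m = n2
          · subst hm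
            apply Subtype.ext
            rw [hk.2.1, hk'.2.1]
          · exact nr_unique hJ (hk.2.2.2 m hm) (hk'.2.2.2 m hm)
        rw [hq]
      · exact (hinr _ _ hk').elim
      · exact (hinr _ _ hk).elim
      · exact (hinr _ _ hk).elim
      · exact (hinr _ _ hk).elim
  · -- arc
    have hr0 := (a.2.1 n).2.1
    have hr1 := (a.2.1 n).2.2
    have hinr : ∀ (n' : Fin N) (i : Fin J), a ∈ Wc (Sum.inr (n', i) : Idx J N) → n' = n := by
      intro n' i hk
      by_contra hnn
      have h2 := hk.2
      rw [hoth n' (fun h => hnn (Fin.ext h))] at h2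
      exact not_one h2
    have hsome : ∀ (j : Fin J) (q : (m : Fin N) → {u : UnitAddCircle // M m • u = 0})
        (n' : Fin N), a ∈ Wc (Sum.inl (j, q, some n') : Idx J N) → n' = n := by
      intro j q n' hk
      by_contra hnn
      have h1 := hk.2.2.1
      rw [hoth n' (fun h => hnn (Fin.ext h))] at h1
      linarith
    have hcen : ∀ j : Fin J, ‖a.1 - (cen J j : UnitAddCircle)‖ < dl J → (j : ℕ) = 0 := by
      intro j hj
      rw [h0] at hj
      exact cen_zero hj
    have hJdl : (J : ℝ) * dl J = 3 / 4 := by unfold dl; field_simp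
    let g : Idx J N → ℤ := fun k => k.elim (fun x => x.2.2.elim (J : ℤ) fun _ => 0) fun x => (x.2 : ℕ)
    let p : ℤ := ⌊(J : ℝ) * (a.2.1 n : ℝ)⌋
    refine order_aux (t := {p, p + 1}) g ?_ ?_ (Set.toFinite _) ?_
    · rintro (⟨j, q, _ | n'⟩ | ⟨n', i⟩) hk
      · have h1 := (hk.2 n).1
        have h2 : |(J : ℝ) * (a.2.1 n : ℝ) - (J : ℤ)| < 3 / 4 := by
          push_cast
          rw [abs_lt]
          constructor <;> nlinarith
        exact int_near h2
      · have hn' := hsome _ _ _ hk
        subst hn'
        have h1 := hk.2.2.1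
        have h2 : |(J : ℝ) * (a.2.1 n' : ℝ) - ((0 : ℤ) : ℝ)| < 3 / 4 := by
          push_cast
          rw [abs_lt]
          constructor <;> nlinarith
        exact int_near h2
      · have hn' := hinr _ _ hk
        subst hn'
        have h1 := hk.2
        have h2 : |(J : ℝ) * (a.2.1 n' : ℝ) - (((i : ℕ) : ℤ) : ℝ)| < 3 / 4 := by
          have h3 : (J : ℝ) * (a.2.1 n' : ℝ) - (((i : ℕ) : ℤ) : ℝ) =
              J * ((a.2.1 n' : ℝ) - cen J i) := by
            unfold cen
            push_cast
            field_simp
          rw [h3, abs_mul, abs_of_pos hJ', ← hJdl]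
          exact mul_lt_mul_of_pos_left h1 hJ'
        exact int_near h2
    · rintro (⟨j, q, _ | n1⟩ | ⟨n1, i⟩) hk (⟨j', q', _ | n2⟩ | ⟨n2, i'⟩) hk' hgg
      · have hj : j = j' := Fin.ext ((hcen j hk.1).trans (hcen j' hk'.1).symm)
        subst hj
        have hq : q = q' := funext fun m => nr_unique hJ (hk.2 m).2 (hk'.2 m).2
        rw [hq]
      · have h2 : (J : ℤ) = 0 := hgg
        omega
      · have h2 : (J : ℤ) = (i' : ℕ) := hgg
        have := i'.2
        omega
      · have h2 : (0 : ℤ) = J := hgg
        omega
      · have hj : j = j' := Fin.ext ((hcen j hk.1).trans (hcen j' hk'.1).symm)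
        subst hj
        have hn1 := hsome _ _ _ hk
        have hn2 := hsome _ _ _ hk'
        subst hn1
        subst hn2
        have hq : q = q' := by
          funext m
          by_cases hm : m = n2
          · subst hm
            apply Subtype.ext
            rw [hk.2.1, hk'.2.1]
          · exact nr_unique hJ (hk.2.2.2 m hm) (hk'.2.2.2 m hm)
        rw [hq]
      · have h2 : (0 : ℤ) = (i' : ℕ) := hgg
        have := hk'.1
        omega
      · have h2 : ((i : ℕ) : ℤ) = J := hgg
        have := i.2
        omega
      · have h2 : ((i : ℕ) : ℤ) = 0 := hgg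
        have := hk.1
        omega
      · have h2 : ((i : ℕ) : ℤ) = (i' : ℕ) := hgg
        have hi : i = i' := Fin.ext (by exact_mod_cast h2)
        rw [hinr _ _ hk, hinr _ _ hk', hi]
    · refine (Set.ncard_insert_le _ _).trans ?_
      rw [Set.ncard_singleton]

end Pool.Agent.TH243.LC
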