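import Pool.Agent.TH243.LC.Dim3

/-!
# The thin space has covering dimension at most one: conclusion
-/

set_option autoImplicit false

namespace Pool.Agent.TH243.LC

open BoundedContinuousFunction Pool.Agent.W361.LQ Pool.Agent.W654.LQ.Dense Filter Topology
open Pool.Agent.W952.LP (DimLE)

theorem scal_le (i : ℕ) : ‖(1 / 2 : ℝ) ^ i‖ ≤ 1 := by
  rw [norm_pow]
  refine pow_le_one₀ (norm_nonneg _) ?_
  norm_num

theorem crd_zero (a b : Pm) : dist (crd a 0) (crd b 0) ≤ ‖a.1 - b.1‖ := by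
  have h : dist (crd a 0) (crd b 0) = dist (co 1 a.1) (co 1 b.1) := rfl
  rw [h]
  have := dist_co 1 1 a.1 b.1 zero_le_one le_rfl
  rw [sub_self, abs_zero, zero_add] at this
  exact this

theorem crd_succ (a b : Pm) (m : ℕ) : dist (crd a (m + 1)) (crd b (m + 1)) ≤
    |(a.2.1 m : ℝ) - (b.2.1 m : ℝ)| + ‖a.2.2 m - b.2.2 m‖ := by
  have e3 : dist (crd a (m + 1)) (crd b (m + 1)) = ‖(1 / 2 : ℝ) ^ (m + 1)‖ *
      dist (co (a.2.1 m : ℝ) (a.2.2 m)) (co (b.2.1 m : ℝ) (b.2.2 m)) := by
    rw [← dist_smul₀]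
    rfl
  rw [e3]
  have e4 := mul_le_mul_of_nonneg_right (scal_le (m + 1)) (dist_nonneg
    (x := co (a.2.1 m : ℝ) (a.2.2 m)) (y := co (b.2.1 m : ℝ) (b.2.2 m)))
  have e5 := dist_co (a.2.1 m : ℝ) (b.2.1 m : ℝ) (a.2.2 m) (b.2.2 m) (b.2.1 m).2.1 (b.2.1 m).2.2
  linarith

theorem norm_co_le' (r : ℝ) (w : UnitAddCircle) (h0 : 0 ≤ r) : ‖co r w‖ ≤ r := by
  have h2 := norm_circle_le w
  have h3 := norm_circle_le (w + ((1 / 4 : ℝ) : UnitAddCircle))
  have h4 := norm_nonneg w
  have h5 := norm_nonneg (w + ((1 / 4 : ℝ) : UnitAddCircle))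
  simp only [co, Prod.norm_def, Real.norm_eq_abs, max_le_iff]
  refine ⟨by rw [abs_of_nonneg h0], ?_, ?_⟩
  · rw [abs_of_nonneg (mul_nonneg h0 h4)]
    nlinarith
  · rw [abs_of_nonneg (mul_nonneg h0 h5)]
    nlinarith

theorem crd_succ' (a b : Pm) (m : ℕ) : dist (crd a (m + 1)) (crd b (m + 1)) ≤
    (a.2.1 m : ℝ) + (b.2.1 m : ℝ) := by
  have e3 : dist (crd a (m + 1)) (crd b (m + 1)) = ‖(1 / 2 : ℝ) ^ (m + 1)‖ *
      dist (co (a.2.1 m : ℝ) (a.2.2 m)) (co (b.2.1 m : ℝ) (b.2.2 m)) := by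
    rw [← dist_smul₀]
    rfl
  rw [e3]
  have e4 := mul_le_mul_of_nonneg_right (scal_le (m + 1)) (dist_nonneg
    (x := co (a.2.1 m : ℝ) (a.2.2 m)) (y := co (b.2.1 m : ℝ) (b.2.2 m)))
  have e5 := dist_le_norm_add_norm (co (a.2.1 m : ℝ) (a.2.2 m)) (co (b.2.1 m : ℝ) (b.2.2 m))
  have e6 := norm_co_le' (a.2.1 m : ℝ) (a.2.2 m) (a.2.1 m).2.1
  have e7 := norm_co_le' (b.2.1 m : ℝ) (b.2.2 m) (b.2.1 m).2.1
  linarith

theorem nr_close {J N : ℕ} (hJ : 4 ≤ J) {j : Fin J}
    {q : (m : Fin N) → {u : UnitAddCircle // M m • u = 0}} {m : Fin N} {a b : Pm}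
    (h : Nr j q m a) (h' : Nr j q m b) : ‖a.2.2 m - b.2.2 m‖ ≤ 2 * dl J := by
  have e : a.2.2 m - b.2.2 m =
      (a.2.2 m - ((cen J j / M m : ℝ) : UnitAddCircle) - (q m).1) -
      (b.2.2 m - ((cen J j / M m : ℝ) : UnitAddCircle) - (q m).1) := by abel
  rw [e]
  refine (norm_sub_le _ _).trans ?_
  unfold Nr at h h'
  have hdl := dl_pos hJ
  have h1 : dl J / M m ≤ dl J := by
    refine div_le_self hdl.le ?_
    have : 1 ≤ M m := Nat.le_add_left 1 _
    exact_mod_cast this
  linarith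

theorem z_close {J : ℕ} {j : Fin J} {a b : Pm} (h : ‖a.1 - (cen J j : UnitAddCircle)‖ < dl J)
    (h' : ‖b.1 - (cen J j : UnitAddCircle)‖ < dl J) : ‖a.1 - b.1‖ ≤ 2 * dl J := by
  have e : a.1 - b.1 = (a.1 - (cen J j : UnitAddCircle)) - (b.1 - (cen J j : UnitAddCircle)) := by
    abel
  rw [e]
  refine (norm_sub_le _ _).trans ?_
  linarith

/-- the mesh of the cover -/
theorem mesh {S : Set ℕ} {J N : ℕ} (hJ : 4 ≤ J) {ε : ℝ} (h1 : 3 * dl J < ε)
    (h2 : 2 * (1 / 2 : ℝ) ^ N < ε) {a b : Pm} (ha : a ∈ K1 S) (hb : b ∈ K1 S) (k : Idx J N)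
    (hka : a ∈ Wc k) (hkb : b ∈ Wc k) : dist (Phi a) (Phi b) < ε := by
  have hdl := dl_pos hJ
  have hdl2 := dl_lt hJ
  have e1 : (((1 : unitInterval)) : ℝ) = 1 := rfl
  have e0 : (((0 : unitInterval)) : ℝ) = 0 := rfl
  have hfar : ∀ i, N < i → dist (crd a i) (crd b i) ≤ 2 * (1 / 2 : ℝ) ^ N := by
    intro i hi
    have h1 := norm_crd_le' a i
    have h2 := norm_crd_le' b i
    have h3 : (1 / 2 : ℝ) ^ i ≤ (1 / 2 : ℝ) ^ N :=
      pow_le_pow_of_le_one (by norm_num) (by norm_num) hi.le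
    have h4 := dist_le_norm_add_norm (crd a i) (crd b i)
    linarith
  have hmain : (dist (crd a 0) (crd b 0) ≤ 3 * dl J ∧
      ∀ m : Fin N, dist (crd a (m + 1)) (crd b (m + 1)) ≤ 3 * dl J) := by
    rcases k with ⟨j, q, _ | n⟩ | ⟨n, i⟩
    · refine ⟨?_, fun m => ?_⟩
      · have := crd_zero a b
        have := z_close hka.1 hkb.1
        linarith
      · have h3 := crd_succ a b m
        have h4 := nr_close hJ (hka.2 m).2 (hkb.2 m).2
        have h5 : |(a.2.1 m : ℝ) - (b.2.1 m : ℝ)| ≤ dl J := by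
          have h6 := (hka.2 m).1
          have h7 := (hkb.2 m).1
          have h8 := (a.2.1 m).2.2
          have h9 := (b.2.1 m).2.2
          rw [abs_le]
          constructor <;> linarith
        linarith
    · refine ⟨?_, fun m => ?_⟩
      · have := crd_zero a b
        have := z_close hka.1 hkb.1
        linarith
      · by_cases hm : m = n
        · subst hm
          have h3 := crd_succ' a b m
          have h4 := hka.2.2.1
          have h5 := hkb.2.2.1
          linarith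
        · have hmn : (m : ℕ) ≠ n := fun h => hm (Fin.ext h)
          have h3 := crd_succ a b m
          have h4 := nr_close hJ (hka.2.2.2 m hm) (hkb.2.2.2 m hm)
          have hna : a.2.1 n ≠ 1 := by
            intro h
            have h7 := hka.2.2.1
            rw [h] at h7
            linarith
          have hnb : b.2.1 n ≠ 1 := by
            intro h
            have h7 := hkb.2.2.1
            rw [h] at h7
            linarith
          have h5 : a.2.1 m = 1 := (ha.2.1 m n hmn).resolve_right hna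
          have h6 : b.2.1 m = 1 := (hb.2.1 m n hmn).resolve_right hnb
          rw [h5, h6, sub_self, abs_zero] at h3
          linarith
    · have key : ∀ c : Pm, c ∈ K1 S → c ∈ Wc (Sum.inr (n, i) : Idx J N) →
          c.1 = 0 ∧ (∀ m, c.2.2 m = 0) ∧ ∀ m : ℕ, m ≠ n → c.2.1 m = 1 := by
        intro c hc hk
        have hn1 : c.2.1 n ≠ 1 := by
          intro h
          have h7 := hk.2
          rw [h] at h7
          exact not_one h7
        have hn0 : c.2.1 n ≠ 0 := by
          intro h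
          have h7 := hk.2
          rw [h] at h7
          exact not_zero hk.1 h7
        have h8 := ((hc.2.2 n).resolve_left hn0).resolve_left hn1
        exact ⟨h8.1, h8.2, fun m hm => (hc.2.1 m n hm).resolve_right hn1⟩
      obtain ⟨ka1, ka2, ka3⟩ := key a ha hka
      obtain ⟨kb1, kb2, kb3⟩ := key b hb hkb
      refine ⟨?_, fun m => ?_⟩
      · have h3 := crd_zero a b
        rw [ka1, kb1, sub_self, norm_zero] at h3
        linarith
      · have h3 := crd_succ a b m
        rw [ka2, kb2, sub_self, norm_zero] at h3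
        by_cases hm : m = n
        · subst hm
          have h4 := abs_lt.1 hka.2
          have h5 := abs_lt.1 hkb.2
          have h6 : |(a.2.1 m : ℝ) - (b.2.1 m : ℝ)| ≤ 2 * dl J := by
            rw [abs_le]
            constructor <;> linarith
          linarith
        · have hmn : (m : ℕ) ≠ n := fun h => hm (Fin.ext h)
          rw [ka3 m hmn, kb3 m hmn, sub_self, abs_zero] at h3
          linarith
  have hpos : (0 : ℝ) < 2 * (1 / 2 : ℝ) ^ N := by positivity
  refine lt_of_le_of_lt (b := max (3 * dl J) (2 * (1 / 2 : ℝ) ^ N)) ?_ (max_lt h1 h2)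
  rw [BoundedContinuousFunction.dist_le (le_max_of_le_right hpos.le)]
  intro i
  rw [Phi_apply, Phi_apply]
  rcases Nat.eq_zero_or_pos i with hi | hi
  · subst hi
    exact le_max_of_le_left hmain.1
  · rcases Nat.lt_or_ge N i with hN | hN
    · exact le_max_of_le_right (hfar i hN)
    · obtain ⟨m, rfl⟩ : ∃ m, i = m + 1 := ⟨i - 1, by omega⟩
      exact le_max_of_le_left (hmain.2 ⟨m, by omega⟩)

/-- The covering dimension of the thin space is at most one. -/
theorem dim1 (S : Set ℕ) : DimLE (X1 S) 1 := by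
  have hcX : CompactSpace (X1 S) := isCompact_iff_compactSpace.1 (X1_compact S)
  have hcK : CompactSpace (K1 S) := isCompact_iff_compactSpace.1 (K1_compact S)
  have hne : Nonempty (X1 S) := (X1_connected S).nonempty.to_subtype
  refine dimLE_of_mesh 1 fun ε hε => ?_
  obtain ⟨N, hN⟩ := exists_pow_lt_of_lt_one (show (0 : ℝ) < ε / 2 by linarith)
    (show (1 / 2 : ℝ) < 1 by norm_num)
  obtain ⟨J, hJ⟩ := exists_nat_gt (9 / (4 * ε) + 4)
  have hJ4 : 4 ≤ J := by
    have : (4 : ℝ) < J := by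
      have : 0 < 9 / (4 * ε) := by positivity
      linarith
    exact_mod_cast this.le
  have hJ' : (0 : ℝ) < J := by
    have : 0 < J := by omega
    exact_mod_cast this
  have h1 : 3 * dl J < ε := by
    have h2 : 9 / (4 * ε) < J := by linarith
    rw [div_lt_iff₀ (by positivity)] at h2
    unfold dl
    rw [← mul_div_assoc, div_lt_iff₀ (by positivity)]
    linarith
  have h2 : 2 * (1 / 2 : ℝ) ^ N < ε := by linarith
  -- the quotient map
  let π : K1 S → X1 S := fun a => ⟨Phi a.1, a.1, a.2, rfl⟩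
  have hπc : Continuous π :=
    Continuous.subtype_mk (Pool.Agent.W764.LQ.continuous_Phi.comp continuous_subtype_val) _
  have hπs : Function.Surjective π := by
    rintro ⟨_, a, ha, rfl⟩
    exact ⟨⟨a, ha⟩, rfl⟩
  have hπq : Topology.IsQuotientMap π := hπc.isClosedMap.isQuotientMap hπc hπs
  let V : Idx J N → Set (X1 S) := fun k => {x | ∃ a : K1 S, π a = x ∧ a.1 ∈ Wc k}
  have hpre : ∀ k, π ⁻¹' (V k) = {a : K1 S | a.1 ∈ Wc k} := by
    intro k
    ext a
    constructor
    · rintro ⟨b, hb, hk⟩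
      have hba : Phi b.1 = Phi a.1 := congrArg Subtype.val hb
      exact satur hJ4 b.2 hba k hk
    · intro h
      exact ⟨a, rfl, h⟩
  refine ⟨Idx J N, inferInstance, V, fun k => ?_, fun x => ?_, fun k x hx y hy => ?_, fun x => ?_⟩
  · rw [← hπq.isOpen_preimage, hpre k]
    exact (open_Wc k).preimage continuous_subtype_val
  · obtain ⟨a, rfl⟩ := hπs x
    obtain ⟨k, hk⟩ := covers (N := N) hJ4 a.2
    exact ⟨k, a, rfl, hk⟩
  · obtain ⟨a, rfl, ha⟩ := hx
    obtain ⟨b, rfl, hb⟩ := hy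
    exact mesh hJ4 h1 h2 a.2 b.2 k ha hb
  · obtain ⟨a, rfl⟩ := hπs x
    have h3 : {k | π a ∈ V k} = {k : Idx J N | a.1 ∈ Wc k} := by
      ext k
      have := hpre k
      exact Set.ext_iff.1 this a
    rw [h3]
    exact order hJ4 a.2

end Pool.Agent.TH243.LC
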