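import Pool.Agent.TH243.LC.Dim4
import Pool.Agent.W361.LQ.Fin
import Pool.Agent.W923.LQ.Val
import Pool.Agent.W641.LQ.APX
import Pool.Agent.W19.LQ.FP
import Pool.Agent.W89.LQ.Lt
import Pool.Agent.W918.LQ.CX
import Pool.Agent.W565.LQ.Near
import Pool.Agent.W311.LQ.Init
import Pool.Agent.W924.LQ.BACK
import Pool.Agent.W605.LQ.Forth
import Pool.Agent.W436.LQ.PI
import Pool.Agent.W162.LQ.Tab
import Pool.Agent.W952.LP.Low

/-!
# A one-dimensional low₂-presented continuum without computable copy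
-/

set_option autoImplicit false

namespace Pool.Agent.TH243.LC

open BoundedContinuousFunction Pool.Agent.W361.LQ Pool.Agent.Helper227 Pool.Agent.H685R3
open Pool.Agent.W952.LP (zero DimLE Presented CompIn ratVal)

/-- The degree of `D` is low of order `n`: its `n`-th Turing jump has the degree of the `n`-th
Turing jump of the empty oracle. -/
def Low (n : ℕ) (D : ℕ → Bool) : Prop :=
  TLe (jump^[n] D) (jump^[n] zero) ∧ TLe (jump^[n] zero) (jump^[n] D)

theorem zero_le (D : ℕ → Bool) : TLe zero D := by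
  rw [tLe_iff_SI]
  exact SI.of_prim (Primrec.eq.comp (Primrec.const false) Primrec.snd)

theorem jump_iter {A B : ℕ → Bool} (h : TLe A B) (n : ℕ) : TLe (jump^[n] A) (jump^[n] B) := by
  induction n with
  | zero => exact h
  | succ n ih =>
    rw [Function.iterate_succ_apply', Function.iterate_succ_apply']
    exact ih.jump

theorem low_two {D : ℕ → Bool} (h : TLe (jump (jump D)) (jump (jump zero))) : Low 2 D :=
  ⟨h, jump_iter (zero_le D) 2⟩

theorem low_mono {D : ℕ → Bool} {n : ℕ} (h : Low n D) (k : ℕ) : Low (k + n) D := by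
  refine ⟨?_, jump_iter (zero_le D) _⟩
  rw [Function.iterate_add_apply, Function.iterate_add_apply]
  exact jump_iter h.1 k

/-- Rounding `2 ^ k` times the rational number with code `u` to a nearest integer. -/
def rd (k u : ℕ) : ℕ := (2 * (2 ^ k * u.unpair.1) + (u.unpair.2 + 1)) / (2 * (u.unpair.2 + 1))

theorem rd_spec (k u : ℕ) : |(rd k u : ℝ) / 2 ^ k - ratVal u| ≤ 1 / 2 ^ (k + 1) := by
  unfold rd ratVal
  set A : ℕ := u.unpair.1
  set B : ℕ := u.unpair.2 + 1 with hB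
  have hBpos : 0 < B := Nat.succ_pos _
  have hB' : (0 : ℝ) < B := by exact_mod_cast hBpos
  have hBc : ((u.unpair.2 : ℕ) : ℝ) + 1 = B := by rw [hB]; push_cast; ring
  rw [hBc]
  set q : ℕ := (2 * (2 ^ k * A) + B) / (2 * B) with hq
  have h1 : q * (2 * B) ≤ 2 * (2 ^ k * A) + B := Nat.div_mul_le_self _ _
  have h2 : 2 * (2 ^ k * A) + B < (q + 1) * (2 * B) := by
    have h3 := Nat.div_add_mod (2 * (2 ^ k * A) + B) (2 * B)
    have h4 := Nat.mod_lt (2 * (2 ^ k * A) + B) (show 2 * B > 0 by positivity)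
    rw [← hq] at h3
    rw [add_mul, one_mul, mul_comm q]
    omega
  have h1' : (q : ℝ) * (2 * B) ≤ 2 * (2 ^ k * A) + B := by exact_mod_cast h1
  have h2' : 2 * (2 ^ k * (A : ℝ)) + B < (q + 1) * (2 * B) := by exact_mod_cast h2
  have hk : (0 : ℝ) < 2 ^ k := by positivity
  have e : (q : ℝ) / 2 ^ k - A / B = (q * (2 * B) - 2 * (2 ^ k * A)) / (2 ^ (k + 1) * B) := by
    field_simp
    ring
  rw [e, abs_div, abs_of_pos (by positivity : (0 : ℝ) < 2 ^ (k + 1) * B), div_le_div_iff₀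
    (by positivity) (by positivity)]
  have h3 : |(q : ℝ) * (2 * B) - 2 * (2 ^ k * A)| ≤ B := by
    rw [abs_le]
    constructor <;> linarith
  calc |(q : ℝ) * (2 * B) - 2 * (2 ^ k * A)| * 2 ^ (k + 1) ≤ B * 2 ^ (k + 1) :=
        mul_le_mul_of_nonneg_right h3 (by positivity)
    _ = 1 * (2 ^ (k + 1) * B) := by ring

theorem p_rd : Primrec fun x : ℕ × ℕ => rd x.1 x.2 := by
  have h1 : Primrec fun x : ℕ × ℕ => 2 ^ x.1 := p_two_pow.comp Primrec.fst
  have h2 : Primrec fun x : ℕ × ℕ => x.2.unpair.1 :=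
    Primrec.fst.comp (Primrec.unpair.comp Primrec.snd)
  have h3 : Primrec fun x : ℕ × ℕ => x.2.unpair.2 + 1 :=
    Primrec.succ.comp (Primrec.snd.comp (Primrec.unpair.comp Primrec.snd))
  exact Primrec.nat_div.comp
    (Primrec.nat_add.comp (Primrec.nat_mul.comp (Primrec.const 2) (Primrec.nat_mul.comp h1 h2)) h3)
    (Primrec.nat_mul.comp (Primrec.const 2) h3)

/-- The dyadic approximations. -/
def hh (f : ℕ → ℕ) (m : ℕ) : ℕ := rd m.unpair.2.unpair.2
  (f (Nat.pair m.unpair.1 (Nat.pair m.unpair.2.unpair.1 (m.unpair.2.unpair.2 + 1))))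

theorem hh_pair (f : ℕ → ℕ) (i j k : ℕ) :
    hh f (Nat.pair i (Nat.pair j k)) = rd k (f (Nat.pair i (Nat.pair j (k + 1)))) := by
  unfold hh
  rw [Nat.unpair_pair]
  simp only []
  rw [Nat.unpair_pair]

/-- Dyadic approximations computed from rational ones. -/
theorem dyadic {d : ℕ → ℕ → ℝ} {f : ℕ → ℕ} (hf : CompIn zero f)
    (hd : ∀ i j n : ℕ, |d i j - ratVal (f (Nat.pair i (Nat.pair j n)))| ≤ (1 / 2 : ℝ) ^ n) :
    ∃ h : ℕ → ℕ, Computable h ∧
      ∀ i j k : ℕ, |(h (Nat.pair i (Nat.pair j k)) : ℝ) / 2 ^ k - d i j| ≤ 1 / 2 ^ k := by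
  have hfc : Computable f := by
    have h0 : TuringReducible (fun n => Part.some (f n)) (fun _ : ℕ => Part.some 0) := hf
    exact TuringReducible.partrec_of_const h0
  refine ⟨hh f, ?_, ?_⟩
  · have hu1 : Primrec fun m : ℕ => m.unpair.1 := Primrec.fst.comp Primrec.unpair
    have hu2 : Primrec fun m : ℕ => m.unpair.2 := Primrec.snd.comp Primrec.unpair
    have hu21 : Primrec fun m : ℕ => m.unpair.2.unpair.1 :=
      Primrec.fst.comp (Primrec.unpair.comp hu2)
    have hu22 : Primrec fun m : ℕ => m.unpair.2.unpair.2 :=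
      Primrec.snd.comp (Primrec.unpair.comp hu2)
    have h1 : Computable fun m : ℕ =>
        f (Nat.pair m.unpair.1 (Nat.pair m.unpair.2.unpair.1 (m.unpair.2.unpair.2 + 1))) :=
      hfc.comp (Primrec₂.natPair.comp hu1
        (Primrec₂.natPair.comp hu21 (Primrec.succ.comp hu22))).to_comp
    have h2 : Computable fun x : ℕ × ℕ => rd x.1 x.2 := p_rd.to_comp
    have h3 : Computable fun m : ℕ => (m.unpair.2.unpair.2,
        f (Nat.pair m.unpair.1 (Nat.pair m.unpair.2.unpair.1 (m.unpair.2.unpair.2 + 1)))) :=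
      hu22.to_comp.pair h1
    have h4 := h2.comp h3
    refine h4.of_eq fun m => ?_
    unfold hh
    rfl
  · intro i j k
    rw [hh_pair]
    have h1 := rd_spec k (f (Nat.pair i (Nat.pair j (k + 1))))
    have h2 := hd i j (k + 1)
    have e : (1 / 2 : ℝ) ^ (k + 1) = 1 / 2 ^ (k + 1) := by rw [one_div, inv_pow, one_div]
    rw [e] at h2
    have e2 : (1 : ℝ) / 2 ^ k = 1 / 2 ^ (k + 1) + 1 / 2 ^ (k + 1) := by
      rw [pow_succ]; field_simp; ring
    rw [e2]
    have h3 := abs_sub_le ((rd k (f (Nat.pair i (Nat.pair j (k + 1)))) : ℝ) / 2 ^ k)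
      (ratVal (f (Nat.pair i (Nat.pair j (k + 1))))) (d i j)
    rw [abs_sub_comm (ratVal _)] at h3
    linarith

/-- The codes of the distances. -/
def F1 (c c' : Cd) (k : ℕ) : ℕ := Nat.pair (F c c' k) (2 ^ k - 1)

theorem ratVal_F1 (c c' : Cd) (k : ℕ) : ratVal (F1 c c' k) = (F c c' k : ℝ) / 2 ^ k := by
  unfold ratVal F1
  simp only [Nat.unpair_pair]
  have h : (((2 ^ k - 1 : ℕ) : ℝ) + 1) = 2 ^ k := by
    have : 1 ≤ 2 ^ k := Nat.one_le_two_pow
    rw [Nat.cast_sub this]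
    push_cast
    ring
  rw [h]

theorem p_F1 : Primrec fun x : Cd × Cd × ℕ => F1 x.1 x.2.1 x.2.2 := by
  have h1 : Primrec fun x : Cd × Cd × ℕ => F x.1 x.2.1 x.2.2 := Pool.Agent.W19.LQ.main
  have h2 : Primrec fun x : Cd × Cd × ℕ => 2 ^ x.2.2 - 1 :=
    Primrec.nat_sub.comp (p_two_pow.comp (Primrec.snd.comp Primrec.snd)) (Primrec.const 1)
  exact Primrec₂.natPair.comp h1 h2

/-- The thin space has a presentation computable in the oracle. -/
theorem presented {D : ℕ → Bool} {S : Set ℕ} {T : ℕ → ℕ → Bool}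
    (hT1 : TLe (fun m => T m.unpair.1 m.unpair.2) D) (hS : ∀ n, n ∉ S ↔ ∃ y, T n y = true) :
    Presented D (X1 S) := by
  have hcX : CompactSpace (X1 S) := isCompact_iff_compactSpace.1 (X1_compact S)
  refine ⟨inferInstance, rfl, inferInstance, fun k => pt1 S (pm (sq1 T k)) (mem1 S T hS k), ?_,
    fun m : ℕ => F1 (sq1 T m.unpair.1) (sq1 T m.unpair.2.unpair.1) m.unpair.2.unpair.2, ?_, ?_⟩
  · rw [Metric.denseRange_iff]
    rintro ⟨_, a, ha, rfl⟩ r hr
    obtain ⟨k, hk⟩ := dense1 S T hS a ha r hr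
    exact ⟨k, hk⟩
  · exact comp' (G := F1) p_F1 (nm1 D T hT1)
  · intro i j k
    simp only [Nat.unpair_pair]
    rw [ratVal_F1, abs_sub_comm]
    have h1 := Pool.Agent.W641.LQ.apx Pool.Agent.W923.LQ.Val.main (sq1 T i) (sq1 T j) k
    have e : (1 / 2 : ℝ) ^ k = 1 / 2 ^ k := by rw [one_div, inv_pow, one_div]
    rw [e]
    exact h1

/-- There is a one-dimensional continuum with a `D`-computable presentation which is not homeomorphic
to any computably presented Polish space. -/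
def Example (D : ℕ → Bool) : Prop :=
  ∃ (X : Type) (_ : TopologicalSpace X), CompactSpace X ∧ ConnectedSpace X ∧ DimLE X 1 ∧
    Presented D X ∧ ∀ (Y : Type) [TopologicalSpace Y], Presented zero Y → IsEmpty (X ≃ₜ Y)

/-- An example for every oracle that is not low. -/
theorem nonlow (D : ℕ → Bool) (hD1 : ¬ TLe (jump D) (jump zero)) : Example D := by
  obtain ⟨T, hT1, hT2⟩ := Pool.Agent.W162.LQTab.main D
  let S : Set ℕ := {n | jump D n = false}
  have hS : ∀ n, n ∉ S ↔ ∃ y, T n y = true := by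
    intro n
    rw [← hT2 n]
    simp [S]
  have hcX : CompactSpace (X1 S) := isCompact_iff_compactSpace.1 (X1_compact S)
  have hnear : S_NEAR := Pool.Agent.W565.LQ.Near.main
  refine ⟨X1 S, inferInstance, hcX,
    isConnected_iff_connectedSpace.1 (X1_connected S), dim1 S, presented hT1 hS, ?_⟩
  intro Y tY hY
  obtain ⟨mY, hmt, hcomp, y, hy, f0, hf0, hf0'⟩ := hY
  subst hmt
  refine ⟨fun φ => ?_⟩
  have hcQ : CompactSpace Y := φ.compactSpace
  obtain ⟨h, hh1, hh2⟩ := dyadic hf0 hf0'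
  obtain ⟨f, hf1, hf2⟩ := div1 S
  let f' : C(Y, UnitAddCircle) := ⟨fun q => f (φ.symm q), f.continuous.comp φ.symm.continuous⟩
  obtain ⟨C, d, hC⟩ := Pool.Agent.W311.LQ.main Y y hy f'
  obtain ⟨hL, hG⟩ := Pool.Agent.W89.LQ.Lt.main (fun i j => dist (y i) (y j)) h hh1 hh2
  have key : ∀ n : ℕ, jump D n = false ↔ ∃ (E : List (ℕ × ℕ)) (e : ℕ),
      Cond (LtY y) (GtY y) C d (M n) E e := by
    intro n
    constructor
    · intro hn
      obtain ⟨g, hg⟩ := hf2 n hn
      let g' : C(Y, UnitAddCircle) :=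
        ⟨fun q => g (φ.symm q), g.continuous.comp φ.symm.continuous⟩
      exact Pool.Agent.W605.LQ.Forth.main hnear Y y hy f' g' C d (M n)
        (Pool.Agent.W361.LQ.M_pos n) hC fun q => hg (φ.symm q)
    · rintro ⟨E, e, hE⟩
      obtain ⟨g', hg'⟩ := Pool.Agent.W924.LQ.BACK.main hnear Y y hy f' C d (M n)
        (Pool.Agent.W361.LQ.M_pos n) hC E e hE
      let g : C(X1 S, UnitAddCircle) := ⟨fun x => g' (φ x), g'.continuous.comp φ.continuous⟩
      refine non1 S f g n hf1 fun x => ?_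
      have h3 := hg' (φ x)
      simp only [f', ContinuousMap.coe_mk, Homeomorph.symm_apply_apply] at h3
      exact h3
  refine Pool.Agent.W436.LQ.main D hD1 ?_
  exact (Pool.Agent.W918.LQ.CX.main (LtY y) (GtY y) hL hG C d).of_eq fun n => (key n).symm

/-- The main theorem. -/
theorem main : (∃ D : ℕ → Bool, Low 2 D ∧ Low 4 D ∧ Example D) ∧
    ∀ D : ℕ → Bool, ¬ TLe (jump D) (jump zero) → Example D := by
  refine ⟨?_, nonlow⟩
  obtain ⟨D, hD1, hD2⟩ := deg2 Pool.Agent.W952.LP.low Pool.Agent.W952.LP.inv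
  exact ⟨D, low_two hD2, low_mono (low_two hD2) 2, nonlow D hD1⟩

end Pool.Agent.TH243.LC
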