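import Pool.Agent.TH243.LC.Space
import Pool.Agent.W654.LQ.Dense
import Pool.Agent.W585.LQ.NM

/-!
# The dense sequence of the thin space
-/

set_option autoImplicit false

namespace Pool.Agent.TH243.LC

open BoundedContinuousFunction Pool.Agent.W361.LQ Pool.Agent.W654.LQ.Dense
  Pool.Agent.Helper227 Pool.Agent.H685R3

/-- Keep only radius number `n`; if it is strictly between `0` and `1`, all angles become `0`. -/
def cl (n : ℕ) (c : Cd) : Cd :=
  if 0 < (c.2.2.getD n (0, 0)).2 ∧ (c.2.2.getD n (0, 0)).2 < 2 ^ c.2.1 then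
    (0, c.2.1, (List.range c.2.2.length).map fun i =>
      (0, if i = n then (c.2.2.getD i (0, 0)).2 else 0))
  else
    (c.1, c.2.1, (List.range c.2.2.length).map fun i =>
      ((c.2.2.getD i (0, 0)).1, if i = n then (c.2.2.getD i (0, 0)).2 else 0))

/-- The dense sequence. -/
def sq1 (T : ℕ → ℕ → Bool) (k : ℕ) : Cd := cl k.unpair.2 (sq T k.unpair.1)

theorem getD_ge (c : Cd) (m : ℕ) (h : ¬ m < c.2.2.length) : c.2.2.getD m (0, 0) = (0, 0) := by
  rw [List.getD_eq_getElem?_getD, List.getElem?_eq_none (by simpa using h)]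
  rfl

theorem cl_exp (n : ℕ) (c : Cd) : (cl n c).2.1 = c.2.1 := by
  unfold cl; split_ifs <;> rfl

theorem cl_getD2 (n : ℕ) (c : Cd) (m : ℕ) :
    ((cl n c).2.2.getD m (0, 0)).2 = if m = n then (c.2.2.getD m (0, 0)).2 else 0 := by
  unfold cl
  split_ifs with h1 h2 h2
  · simp only []
    rw [getD_map_range]
    split_ifs with h3
    · simp [h2]
    · rw [getD_ge c m h3]
  · simp only []
    rw [getD_map_range]
    split_ifs with h3
    · simp
    · rfl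
  · simp only []
    rw [getD_map_range]
    split_ifs with h3
    · simp [h2]
    · rw [getD_ge c m h3]
  · simp only []
    rw [getD_map_range]
    split_ifs with h3
    · simp
    · rfl

theorem cl_arc {n : ℕ} {c : Cd} (h : 0 < (c.2.2.getD n (0, 0)).2 ∧
    (c.2.2.getD n (0, 0)).2 < 2 ^ c.2.1) :
    (cl n c).1 = 0 ∧ ∀ m, ((cl n c).2.2.getD m (0, 0)).1 = 0 := by
  unfold cl
  rw [if_pos h]
  refine ⟨rfl, fun m => ?_⟩
  simp only []
  rw [getD_map_range]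
  split_ifs <;> rfl

theorem cl_not {n : ℕ} {c : Cd} (h : ¬ (0 < (c.2.2.getD n (0, 0)).2 ∧
    (c.2.2.getD n (0, 0)).2 < 2 ^ c.2.1)) :
    (cl n c).1 = c.1 ∧ ∀ m, ((cl n c).2.2.getD m (0, 0)).1 = (c.2.2.getD m (0, 0)).1 := by
  unfold cl
  rw [if_neg h]
  refine ⟨rfl, fun m => ?_⟩
  simp only []
  rw [getD_map_range]
  by_cases h3 : m < c.2.2.length
  · rw [if_pos h3]
  · rw [if_neg h3, getD_ge c m h3]

theorem r_cl_eq (n : ℕ) (c : Cd) : (pm (cl n c)).2.1 n = (pm c).2.1 n := by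
  apply Subtype.ext
  show ((rho (cl n c) n : ℕ) : ℝ) / 2 ^ (cl n c).2.1 = ((rho c n : ℕ) : ℝ) / 2 ^ c.2.1
  unfold rho
  rw [cl_getD2, cl_exp, if_pos rfl]

theorem r_cl_ne {n m : ℕ} (h : m ≠ n) (c : Cd) : (pm (cl n c)).2.1 m = 1 := by
  apply Subtype.ext
  show ((rho (cl n c) m : ℕ) : ℝ) / 2 ^ (cl n c).2.1 = 1
  unfold rho
  rw [cl_getD2, cl_exp, if_neg h, Nat.zero_min, Nat.sub_zero]
  push_cast
  exact div_self (by positivity)

theorem pm_z (c : Cd) : (pm c).1 = (((c.1 : ℝ) / 2 ^ c.2.1 : ℝ) : UnitAddCircle) := rfl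

theorem pm_w (c : Cd) (n : ℕ) : (pm c).2.2 n =
    ((((c.1 : ℝ) / 2 ^ c.2.1 + (c.2.2.getD n (0, 0)).1) / M n : ℝ) : UnitAddCircle) := rfl

theorem mem_cl {S : Set ℕ} {c : Cd} (hc : pm c ∈ K S) (n : ℕ) : pm (cl n c) ∈ K1 S := by
  refine ⟨fun m => ⟨smul_angle m _ _, fun hm => ?_⟩, fun m k hmk => ?_, fun m => ?_⟩
  · by_cases h : m = n
    · subst h
      rw [r_cl_eq]
      exact (hc m).2 hm
    · exact r_cl_ne h c
  · by_cases h : m = n
    · right
      exact r_cl_ne (fun h2 => hmk (h.trans h2.symm)) c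
    · left
      exact r_cl_ne h c
  · by_cases h : m = n
    · subst h
      by_cases h2 : 0 < (c.2.2.getD m (0, 0)).2 ∧ (c.2.2.getD m (0, 0)).2 < 2 ^ c.2.1
      · right; right
        obtain ⟨h3, h4⟩ := cl_arc h2
        refine ⟨?_, fun k => ?_⟩
        · rw [pm_z, h3]
          simp
        · rw [pm_w, h3, h4 k]
          simp
      · rw [r_cl_eq]
        by_cases h3 : (c.2.2.getD m (0, 0)).2 = 0
        · right; left
          apply Subtype.ext
          show ((rho c m : ℕ) : ℝ) / 2 ^ c.2.1 = 1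
          unfold rho
          rw [h3, Nat.zero_min, Nat.sub_zero]
          push_cast
          exact div_self (by positivity)
        · left
          apply Subtype.ext
          show ((rho c m : ℕ) : ℝ) / 2 ^ c.2.1 = 0
          unfold rho
          have h4 : 2 ^ c.2.1 ≤ (c.2.2.getD m (0, 0)).2 := by
            by_contra h5
            exact h2 ⟨Nat.pos_of_ne_zero h3, not_le.1 h5⟩
          rw [min_eq_right h4, Nat.sub_self]
          simp
    · right; left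
      exact r_cl_ne h c

theorem mem1 (S : Set ℕ) (T : ℕ → ℕ → Bool) (hT : ∀ n, n ∉ S ↔ ∃ y, T n y = true) (k : ℕ) :
    pm (sq1 T k) ∈ K1 S := mem_cl (mem_K S T hT _) _

theorem angles {S : Set ℕ} {a : Pm} (ha : a ∈ K S) : ∃ (t : ℝ) (j : ℕ → ℕ), 0 ≤ t ∧
    (t : UnitAddCircle) = a.1 ∧ (∀ n, a.2.2 n = (((t + j n) / M n : ℝ) : UnitAddCircle)) ∧
    ((a.1 = 0 ∧ ∀ m, a.2.2 m = 0) → t = 0 ∧ ∀ n, j n = 0) := by
  by_cases h : a.1 = 0 ∧ ∀ m, a.2.2 m = 0
  · refine ⟨0, fun _ => 0, le_rfl, ?_, fun n => ?_, fun _ => ⟨rfl, fun _ => rfl⟩⟩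
    · rw [h.1]; simp
    · rw [h.2 n]; simp
  · obtain ⟨t, ht0, ht1, ht⟩ := rep_exists a.1
    have hang : ∀ n, ∃ j : ℕ, a.2.2 n = (((t + j) / M n : ℝ) : UnitAddCircle) := by
      intro n
      apply angle n t ht1
      rw [(ha n).1, ht]
    choose j hj using hang
    exact ⟨t, j, ht0, ht, hj, fun h2 => absurd h2 h⟩

theorem dense1 (S : Set ℕ) (T : ℕ → ℕ → Bool) (hT : ∀ n, n ∉ S ↔ ∃ y, T n y = true) :
    ∀ a ∈ K1 S, ∀ ε : ℝ, 0 < ε → ∃ k, dist (Phi a) (Phi (pm (sq1 T k))) < ε := by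
  intro a ha ε hε
  obtain ⟨haK, ha1, ha2⟩ := ha
  obtain ⟨N, hN⟩ := exists_pow_lt_of_lt_one (show (0 : ℝ) < ε / 4 by linarith)
    (show (1 / 2 : ℝ) < 1 by norm_num)
  obtain ⟨l, hl⟩ := exists_pow_lt_of_lt_one (show (0 : ℝ) < ε / 4 by linarith)
    (show (1 / 2 : ℝ) < 1 by norm_num)
  obtain ⟨t, j, ht0, ht, hj, hjz⟩ := angles haK
  have hex : ∀ n, ∃ y, n ∉ S → T n y = true := by
    intro n
    by_cases h : n ∈ S
    · exact ⟨0, fun h' => absurd h h'⟩
    · obtain ⟨y, hy⟩ := (hT n).mp h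
      exact ⟨y, fun _ => hy⟩
  choose y hy using hex
  obtain ⟨s, hs⟩ : ∃ s, ∀ n < N, y n < s := by
    refine ⟨(Finset.range N).sup (fun n => y n + 1), fun n hn => ?_⟩
    have : y n + 1 ≤ (Finset.range N).sup (fun n => y n + 1) :=
      Finset.le_sup (f := fun n => y n + 1) (Finset.mem_range.mpr hn)
    omega
  obtain ⟨L, hLlen, hL⟩ : ∃ L : List (ℕ × ℕ), L.length = N ∧ ∀ n < N, L.getD n (0, 0) =
      (j n, ⌊(1 - (a.2.1 n : ℝ)) * 2 ^ l⌋₊) := by
    refine ⟨(List.range N).map (fun n => (j n, ⌊(1 - (a.2.1 n : ℝ)) * 2 ^ l⌋₊)), by simp,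
      fun n hn => ?_⟩
    rw [getD_map_range, if_pos hn]
  obtain ⟨k, hraw⟩ : ∃ k, raw k = (⌊t * 2 ^ l⌋₊, l, s, L) := by
    refine ⟨Encodable.encode ((⌊t * 2 ^ l⌋₊, l, s, L) : ℕ × ℕ × ℕ × List (ℕ × ℕ)), ?_⟩
    unfold raw
    rw [Encodable.encodek]
    rfl
  have hsq : Pool.Agent.W361.LQ.sq T k = (⌊t * 2 ^ l⌋₊, l, nm T s L) := by
    unfold Pool.Agent.W361.LQ.sq
    rw [hraw]
  have hgetD : ∀ n < N, (nm T s L).getD n (0, 0) =
      (j n, ⌊(1 - (a.2.1 n : ℝ)) * 2 ^ l⌋₊) := by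
    intro n hn
    rw [getD_nm, hLlen, if_pos hn, hL n hn]
    by_cases hnS : n ∈ S
    · have e2 : ⌊(1 - (a.2.1 n : ℝ)) * 2 ^ l⌋₊ = 0 := by
        rw [(haK n).2 hnS]
        simp
      simp [e2]
    · have e2 : fl T n s = true := by
        rw [fl_true]
        exact ⟨y n, hs n hn, hy n hnS⟩
      simp [e2]
  have hgetD' : ∀ n, ¬ n < N → (nm T s L).getD n (0, 0) = (0, 0) := by
    intro n hn
    rw [getD_nm, hLlen, if_neg hn]
  -- the exceptional index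
  obtain ⟨n0, hn0⟩ : ∃ n0, ∀ m, m ≠ n0 → a.2.1 m = 1 := by
    by_cases h : ∃ n, a.2.1 n ≠ 1
    · obtain ⟨n, hn⟩ := h
      exact ⟨n, fun m hm => (ha1 m n hm).resolve_right hn⟩
    · push Not at h
      exact ⟨0, fun m _ => h m⟩
  let c0 : Cd := (⌊t * 2 ^ l⌋₊, l, nm T s L)
  have hA : |t - ((cl n0 c0).1 : ℝ) / 2 ^ l| ≤ (1 / 2 : ℝ) ^ l ∧
      ∀ n < N, (cl n0 c0).2.2.getD n (0, 0) = (j n, ⌊(1 - (a.2.1 n : ℝ)) * 2 ^ l⌋₊) := by
    have h2nd : ∀ n < N, ((cl n0 c0).2.2.getD n (0, 0)).2 = ⌊(1 - (a.2.1 n : ℝ)) * 2 ^ l⌋₊ := by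
      intro n hn
      rw [cl_getD2]
      split_ifs with h
      · show ((nm T s L).getD n (0, 0)).2 = _
        rw [hgetD n hn]
      · rw [hn0 n h]
        simp
    by_cases hc : 0 < (c0.2.2.getD n0 (0, 0)).2 ∧ (c0.2.2.getD n0 (0, 0)).2 < 2 ^ c0.2.1
    · -- arc point
      have hn0N : n0 < N := by
        by_contra h
        have h3 : c0.2.2.getD n0 (0, 0) = (0, 0) := hgetD' n0 h
        rw [h3] at hc
        exact lt_irrefl _ hc.1
      have h3 : c0.2.2.getD n0 (0, 0) = (j n0, ⌊(1 - (a.2.1 n0 : ℝ)) * 2 ^ l⌋₊) := hgetD n0 hn0N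
      have h4 : a.1 = 0 ∧ ∀ m, a.2.2 m = 0 := by
        rcases ha2 n0 with h | h | h
        · exfalso
          rw [h3, h] at hc
          have h5 : (1 - ((0 : unitInterval) : ℝ)) * 2 ^ l = ((2 ^ l : ℕ) : ℝ) := by
            push_cast
            simp
          simp only [] at hc
          rw [h5, Nat.floor_natCast] at hc
          exact lt_irrefl _ hc.2
        · exfalso
          rw [h3, h] at hc
          simp at hc
        · exact h
      obtain ⟨h5, h6⟩ := hjz h4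
      obtain ⟨h7, h8⟩ := cl_arc hc
      refine ⟨?_, fun n hn => ?_⟩
      · rw [h5, h7]
        simp
      · refine Prod.ext ?_ (h2nd n hn)
        rw [h8 n, h6 n]
    · obtain ⟨h7, h8⟩ := cl_not hc
      refine ⟨?_, fun n hn => ?_⟩
      · rw [h7]
        exact floor_approx t ht0 l
      · refine Prod.ext ?_ (h2nd n hn)
        rw [h8 n]
        show ((nm T s L).getD n (0, 0)).1 = _
        rw [hgetD n hn]
  refine ⟨Nat.pair k n0, ?_⟩
  have hsq1 : sq1 T (Nat.pair k n0) = cl n0 c0 := by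
    unfold sq1
    rw [Nat.unpair_pair]
    simp only []
    rw [hsq]
  rw [hsq1]
  have hexp : (cl n0 c0).2.1 = l := cl_exp n0 c0
  have := dist_est a (cl n0 c0) t N ε j hN (by rw [hexp]; exact hl) ht hj
    (by rw [hexp]; exact hA.1) (by rw [hexp]; exact hA.2)
  linarith

theorem p_two_pow : Primrec fun m : ℕ => 2 ^ m :=
  (Primrec₂.unpaired'.1 Nat.Primrec.pow).comp (Primrec.const 2) Primrec.id

theorem p_cl : Primrec fun x : ℕ × Cd => cl x.1 x.2 := by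
  have hn : Primrec fun x : ℕ × Cd => x.1 := Primrec.fst
  have hA : Primrec fun x : ℕ × Cd => x.2.1 := Primrec.fst.comp Primrec.snd
  have hl : Primrec fun x : ℕ × Cd => x.2.2.1 :=
    Primrec.fst.comp (Primrec.snd.comp Primrec.snd)
  have hL : Primrec fun x : ℕ × Cd => x.2.2.2 :=
    Primrec.snd.comp (Primrec.snd.comp Primrec.snd)
  have hg : Primrec fun x : ℕ × Cd => x.2.2.2.getD x.1 ((0, 0) : ℕ × ℕ) :=
    (Primrec.list_getD ((0, 0) : ℕ × ℕ)).comp hL hn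
  have hcond : PrimrecPred fun x : ℕ × Cd => 0 < (x.2.2.2.getD x.1 ((0, 0) : ℕ × ℕ)).2 ∧
      (x.2.2.2.getD x.1 ((0, 0) : ℕ × ℕ)).2 < 2 ^ x.2.2.1 :=
    (Primrec.nat_lt.comp (Primrec.const 0) (Primrec.snd.comp hg)).and
      (Primrec.nat_lt.comp (Primrec.snd.comp hg) (p_two_pow.comp hl))
  have hr : Primrec fun x : ℕ × Cd => List.range x.2.2.2.length :=
    Primrec.list_range.comp (Primrec.list_length.comp hL)
  have hgi : Primrec fun y : (ℕ × Cd) × ℕ => y.1.2.2.2.getD y.2 ((0, 0) : ℕ × ℕ) :=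
    (Primrec.list_getD ((0, 0) : ℕ × ℕ)).comp (hL.comp Primrec.fst) Primrec.snd
  have hsel : Primrec fun y : (ℕ × Cd) × ℕ =>
      if y.2 = y.1.1 then (y.1.2.2.2.getD y.2 ((0, 0) : ℕ × ℕ)).2 else 0 :=
    Primrec.ite (Primrec.eq.comp Primrec.snd (Primrec.fst.comp Primrec.fst))
      (Primrec.snd.comp hgi) (Primrec.const 0)
  have h1 : Primrec fun x : ℕ × Cd => (List.range x.2.2.2.length).map fun i =>
      ((0 : ℕ), if i = x.1 then (x.2.2.2.getD i ((0, 0) : ℕ × ℕ)).2 else 0) :=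
    Primrec.list_map hr ((Primrec.const 0).pair hsel).to₂
  have h2 : Primrec fun x : ℕ × Cd => (List.range x.2.2.2.length).map fun i =>
      ((x.2.2.2.getD i ((0, 0) : ℕ × ℕ)).1,
        if i = x.1 then (x.2.2.2.getD i ((0, 0) : ℕ × ℕ)).2 else 0) :=
    Primrec.list_map hr ((Primrec.fst.comp hgi).pair hsel).to₂
  have h3 : Primrec fun x : ℕ × Cd =>
      if 0 < (x.2.2.2.getD x.1 ((0, 0) : ℕ × ℕ)).2 ∧
        (x.2.2.2.getD x.1 ((0, 0) : ℕ × ℕ)).2 < 2 ^ x.2.2.1 then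
      (((0 : ℕ), x.2.2.1, (List.range x.2.2.2.length).map fun i =>
        ((0 : ℕ), if i = x.1 then (x.2.2.2.getD i ((0, 0) : ℕ × ℕ)).2 else 0)) : Cd)
      else (x.2.1, x.2.2.1, (List.range x.2.2.2.length).map fun i =>
        ((x.2.2.2.getD i ((0, 0) : ℕ × ℕ)).1,
          if i = x.1 then (x.2.2.2.getD i ((0, 0) : ℕ × ℕ)).2 else 0)) :=
    Primrec.ite hcond ((Primrec.const 0).pair (hl.pair h1)) (hA.pair (hl.pair h2))
  exact h3

/-- the dense sequence is computable with the oracle -/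
theorem nm1 (D : ℕ → Bool) (T : ℕ → ℕ → Bool)
    (hT : TLe (fun m => T m.unpair.1 m.unpair.2) D) :
    SI D fun x : ℕ × Cd => sq1 T x.1 = x.2 := by
  have h0 : SI D fun x : ℕ × Cd => sq T x.1 = x.2 := Pool.Agent.W585.LQ.NM.main D T hT
  have h1 : SI D fun x : ℕ × Cd => ∃ c : Cd, sq T x.1.unpair.1 = c ∧ cl x.1.unpair.2 c = x.2 := by
    refine SI.ex (p := fun (x : ℕ × Cd) (c : Cd) =>
      sq T x.1.unpair.1 = c ∧ cl x.1.unpair.2 c = x.2) (SI.and ?_ (SI.of_prim ?_))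
    · exact h0.comp (f := fun y : (ℕ × Cd) × Cd => (y.1.1.unpair.1, y.2))
        ((Primrec.fst.comp (Primrec.unpair.comp (Primrec.fst.comp Primrec.fst))).pair Primrec.snd)
    · have h2 : Primrec fun y : (ℕ × Cd) × Cd => cl y.1.1.unpair.2 y.2 :=
        p_cl.comp ((Primrec.snd.comp (Primrec.unpair.comp (Primrec.fst.comp Primrec.fst))).pair
          Primrec.snd)
      exact Primrec.eq.comp h2 (Primrec.snd.comp Primrec.fst)
  refine h1.of_eq fun x => ?_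
  constructor
  · rintro ⟨c, h3, h4⟩
    unfold sq1
    rw [h3, h4]
  · intro h
    exact ⟨_, rfl, h⟩

end Pool.Agent.TH243.LC
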