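import Pool.Agent.W361.LQ.Stm
import Pool.Agent.W381.LQ.Non
import Pool.Agent.W764.LQ.CPT0
import Pool.Agent.W395.LQ.Div
import Pool.Agent.W168.LQ.Inj

/-!
# A one-dimensional continuum attached to a set of natural numbers

The space `X1 S` is a subspace of the (infinite-dimensional) space `X S` of project LQ: it consists of
a solenoid, of one further solenoid for every `n ∉ S`, and of an arc from the first solenoid to
each of the others. It has a continuous map to the circle which is divisible by the Fermat number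
`M n` exactly if `n ∈ S`.
-/

set_option autoImplicit false

namespace Pool.Agent.TH243.LC

open BoundedContinuousFunction Pool.Agent.W361.LQ Filter Topology

/-- The parameters of the thin space: at most one radius differs from `1`, and it is `0` unless all
angles are `0`. -/
def K1 (S : Set ℕ) : Set Pm := {a | a ∈ K S ∧ (∀ m n, m ≠ n → a.2.1 m = 1 ∨ a.2.1 n = 1) ∧
  ∀ n, a.2.1 n = 0 ∨ a.2.1 n = 1 ∨ (a.1 = 0 ∧ ∀ m, a.2.2 m = 0)}

/-- The thin space. -/
def X1 (S : Set ℕ) : Set (ℕ →ᵇ ℝ × ℝ × ℝ) := Phi '' K1 S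

theorem K1_sub (S : Set ℕ) : K1 S ⊆ K S := fun _ h => h.1

theorem X1_sub (S : Set ℕ) : X1 S ⊆ X S := Set.image_mono (K1_sub S)

/-- The point of the thin space with parameter `a`. -/
noncomputable def pt1 (S : Set ℕ) (a : Pm) (h : a ∈ K1 S) : X1 S := ⟨Phi a, a, h, rfl⟩

theorem c_w (n : ℕ) : Continuous (fun a : Pm => a.2.2 n) :=
  (continuous_apply n).comp (continuous_snd.comp continuous_snd)

theorem c_r (n : ℕ) : Continuous (fun a : Pm => a.2.1 n) :=
  (continuous_apply n).comp (continuous_fst.comp continuous_snd)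

theorem isClosed_K1 (S : Set ℕ) : IsClosed (K1 S) := by
  have h1 : K1 S = K S ∩ ((⋂ m : ℕ, ⋂ n : ℕ, {a : Pm | m ≠ n → a.2.1 m = 1 ∨ a.2.1 n = 1}) ∩
      ⋂ n : ℕ, ({a : Pm | a.2.1 n = 0} ∪ ({a : Pm | a.2.1 n = 1} ∪
        ({a : Pm | a.1 = 0} ∩ ⋂ m : ℕ, {a : Pm | a.2.2 m = 0})))) := by
    ext a
    simp only [K1, Set.mem_ofPred_eq, Set.mem_iInter, Set.mem_inter_iff, Set.mem_union]
  rw [h1]
  refine (Pool.Agent.W764.LQ.isClosed_K S).inter (IsClosed.inter ?_ ?_)
  · refine isClosed_iInter fun m => isClosed_iInter fun n => ?_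
    by_cases hmn : m = n
    · have : {a : Pm | m ≠ n → a.2.1 m = 1 ∨ a.2.1 n = 1} = Set.univ := by
        ext a; simp [hmn]
      rw [this]
      exact isClosed_univ
    · have : {a : Pm | m ≠ n → a.2.1 m = 1 ∨ a.2.1 n = 1} =
          {a : Pm | a.2.1 m = 1} ∪ {a : Pm | a.2.1 n = 1} := by
        ext a; simp [hmn]
      rw [this]
      exact (isClosed_eq (c_r m) continuous_const).union (isClosed_eq (c_r n) continuous_const)
  · refine isClosed_iInter fun n => ?_
    refine (isClosed_eq (c_r n) continuous_const).union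
      ((isClosed_eq (c_r n) continuous_const).union ((isClosed_eq continuous_fst
        continuous_const).inter (isClosed_iInter fun m => isClosed_eq (c_w m) continuous_const)))

theorem K1_compact (S : Set ℕ) : IsCompact (K1 S) := (isClosed_K1 S).isCompact

theorem X1_compact (S : Set ℕ) : IsCompact (X1 S) :=
  (K1_compact S).image Pool.Agent.W764.LQ.continuous_Phi

theorem cpt : S_CPT := Pool.Agent.W764.LQ.main0

theorem inj : S_INJ := Pool.Agent.W168.LQ.main

theorem div0 : S_DIV := Pool.Agent.W395.LQ.Div.main cpt inj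

/-- The map to the circle, and its divisibility for `n ∈ S`. -/
theorem div1 (S : Set ℕ) : ∃ f : C(X1 S, UnitAddCircle),
    (∀ (a : Pm) (h : a ∈ K1 S), f (pt1 S a h) = a.1) ∧
      ∀ n ∈ S, ∃ g : C(X1 S, UnitAddCircle), ∀ x, M n • g x = f x := by
  obtain ⟨f, hf1, hf2⟩ := div0 S
  let ι : C(X1 S, X S) := ⟨fun x => ⟨x.1, X1_sub S x.2⟩, by fun_prop⟩
  refine ⟨f.comp ι, fun a h => hf1 a h.1, fun n hn => ?_⟩
  obtain ⟨g, hg⟩ := hf2 n hn
  exact ⟨g.comp ι, fun x => hg (ι x)⟩

theorem ph_mem1 {S : Set ℕ} {n : ℕ} (hn : n ∉ S) (t : ℝ) : Pool.Agent.W381.LQ.ph n t ∈ K1 S := by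
  refine ⟨Pool.Agent.W381.LQ.ph_mem hn t, fun m k hmk => ?_, fun m => ?_⟩
  · by_cases hm : m = n
    · right
      have : k ≠ n := fun h => hmk (hm.trans h.symm)
      exact if_neg this
    · left
      exact if_neg hm
  · by_cases hm : m = n
    · left
      exact if_pos hm
    · right; left
      exact if_neg hm

open Pool.Agent.W381.LQ in
/-- no divisibility for `n ∉ S` -/
theorem non1 (S : Set ℕ) (f g : C(X1 S, UnitAddCircle)) (n : ℕ)
    (hf : ∀ (a : Pm) (h : a ∈ K1 S), f (pt1 S a h) = a.1) (hg : ∀ x, M n • g x = f x) :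
    n ∈ S := by
  by_contra hn
  -- the path in the space
  let p : ℝ → X1 S := fun t => pt1 S (ph n t) (ph_mem1 hn t)
  have hp : Continuous p := Continuous.subtype_mk (cont_Phi n) _
  let h : ℝ → UnitAddCircle := fun t => g (p t)
  have hh : Continuous h := g.continuous.comp hp
  have hM : (0 : ℝ) < M n := M_pos n
  have hhM : ∀ t : ℝ, M n • h t = (t : UnitAddCircle) := fun t => by
    change M n • g (p t) = _
    rw [hg, hf]
    rfl
  let u : ℝ → UnitAddCircle := fun t => h t - ((t / M n : ℝ) : UnitAddCircle)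
  have hu : Continuous u := by
    refine hh.sub ?_
    exact (AddCircle.continuous_mk' (1 : ℝ)).comp (continuous_id.div_const _)
  have huM : ∀ t, M n • u t = 0 := fun t => by
    change M n • (h t - ((t / M n : ℝ) : UnitAddCircle)) = 0
    rw [nsmul_sub, hhM, nsmul_div (M n) hM, sub_self]
  have hloc : IsLocallyConstant u := by
    rw [IsLocallyConstant.iff_eventually_eq]
    intro x
    have h1 : ∀ᶠ y in 𝓝 x, dist (u y) (u x) < 1 / (M n : ℝ) :=
      (hu.tendsto x).eventually (Metric.ball_mem_nhds _ (by positivity))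
    filter_upwards [h1] with y hy
    rw [dist_eq_norm] at hy
    have h2 : M n • (u y - u x) = 0 := by rw [nsmul_sub, huM, huM, sub_self]
    exact sub_eq_zero.1 (tor h2 hy)
  have hconst : ∀ t, u t = u 0 := fun t => hloc.apply_eq_of_preconnectedSpace t 0
  have hform : ∀ t, h t - h 0 = ((t / M n : ℝ) : UnitAddCircle) := fun t => by
    have h1 := hconst t
    change h t - ((t / M n : ℝ) : UnitAddCircle) = h 0 - (((0 : ℝ) / M n : ℝ) : UnitAddCircle) at h1
    rw [zero_div, AddCircle.coe_zero, sub_zero] at h1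
    rw [← h1]
    abel
  -- the special times
  have ht : Tendsto (fun k : ℕ => p (tk n k)) atTop (𝓝 (p 0)) := by
    rw [tendsto_iff_dist_tendsto_zero]
    refine squeeze_zero (fun _ => dist_nonneg) (fun k => dist_tk n k) ?_
    exact tendsto_pow_atTop_nhds_zero_of_lt_one (by norm_num) (by norm_num)
  have hg2 : Tendsto (fun k : ℕ => h (tk n k)) atTop (𝓝 (h 0)) :=
    (g.continuous.tendsto (p 0)).comp ht
  have hev : ∀ᶠ k : ℕ in atTop, dist (h (tk n k)) (h 0) < 1 / (M n : ℝ) :=
    hg2.eventually (Metric.ball_mem_nhds _ (by positivity))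
  obtain ⟨k, hk⟩ := hev.exists
  rw [dist_eq_norm, hform] at hk
  have h3 : M n • ((((tk n k : ℕ) : ℝ) / M n : ℝ) : UnitAddCircle) = 0 := by
    rw [nsmul_div (M n) hM, coe_nat]
  have h4 := tor h3 hk
  rw [AddCircle.coe_eq_zero_iff] at h4
  obtain ⟨m, hm⟩ := h4
  have h5 : ((tk n k : ℕ) : ℝ) = (M n : ℝ) * m := by
    have : (m : ℝ) = ((tk n k : ℕ) : ℝ) / M n := by simpa using hm
    rw [this]; field_simp
  have h6 : ((tk n k : ℕ) : ℤ) = (M n : ℤ) * m := by exact_mod_cast h5
  have h7 : M n ∣ tk n k := by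
    have : (M n : ℤ) ∣ ((tk n k : ℕ) : ℤ) := ⟨m, h6⟩
    exact_mod_cast this
  have h8 : Nat.Coprime (M n) (tk n k) := by
    unfold tk
    refine Nat.Coprime.prod_right fun j hj => ?_
    have hne : n ≠ j := (Finset.ne_of_mem_erase hj).symm
    exact Nat.coprime_fermatNumber_fermatNumber hne
  have h9 : M n = 1 := Nat.eq_one_of_dvd_coprimes h8 dvd_rfl h7
  have : 2 ≤ M n := by
    unfold M
    have : 0 < 2 ^ 2 ^ n := by positivity
    omega
  omega

end Pool.Agent.TH243.LC
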